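import Pool.Agent.V7H48.SP.Paley
import Pool.Agent.R111.PG.Op

/-!
# Equidistribution of patterns: all known ranges
-/

set_option autoImplicit false

namespace Pool.Agent.V7H48.SP

open Finset Pool.Agent.N793.PG

variable {F : ∀ p : ℕ, MulChar (ZMod p) ℂ → Prop}

/-- bounds for all pairs of subsets of sets with slightly more elements -/
theorem subsets {α α' δ η : ℝ} (h : Saves F α α' δ) : ∃ p₀ : ℕ, ∀ p : ℕ, p.Prime → p₀ < p →
    ∀ A B : Finset (ZMod p), (p : ℝ) ^ (α + η) < (A.card : ℝ) → (p : ℝ) ^ (α' + η) < (B.card : ℝ) →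
      ∀ χ : MulChar (ZMod p) ℂ, χ ≠ 1 → F p χ → ∀ M ⊆ A, ∀ N ⊆ B,
        ‖∑ a ∈ M, ∑ b ∈ N, χ (a + b)‖ ≤ (p : ℝ) ^ (-min δ η) * A.card * B.card := by
  obtain ⟨p₀, h⟩ := h
  refine ⟨p₀, fun p hp hlt A B hA hB χ hχ hF M hM N hN => ?_⟩
  have : Fact p.Prime := ⟨hp⟩
  have hp0 : (0 : ℝ) < p := by exact_mod_cast hp.pos
  have hp1 : (1 : ℝ) ≤ p := by exact_mod_cast hp.one_le
  have hle1 : (p : ℝ) ^ (-δ) ≤ (p : ℝ) ^ (-min δ η) :=
    Real.rpow_le_rpow_of_exponent_le hp1 (neg_le_neg (min_le_left _ _))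
  have hle2 : (p : ℝ) ^ (-η) ≤ (p : ℝ) ^ (-min δ η) :=
    Real.rpow_le_rpow_of_exponent_le hp1 (neg_le_neg (min_le_right _ _))
  have hbd : ∀ (M N : Finset (ZMod p)), ‖∑ a ∈ M, ∑ b ∈ N, χ (a + b)‖ ≤ (M.card : ℝ) * N.card := by
    intro M N
    refine (norm_sum_le _ _).trans ?_
    calc ∑ a ∈ M, ‖∑ b ∈ N, χ (a + b)‖ ≤ ∑ a ∈ M, (N.card : ℝ) := by
          refine sum_le_sum fun a _ => (norm_sum_le _ _).trans ?_
          calc ∑ b ∈ N, ‖χ (a + b)‖ ≤ ∑ b ∈ N, (1 : ℝ) := sum_le_sum fun b _ => norm_le_one χ _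
            _ = N.card := by simp
      _ = _ := by rw [sum_const, nsmul_eq_mul]
  have hMA : (M.card : ℝ) ≤ A.card := by exact_mod_cast card_le_card hM
  have hNB : (N.card : ℝ) ≤ B.card := by exact_mod_cast card_le_card hN
  by_cases h1 : (p : ℝ) ^ α < (M.card : ℝ)
  · by_cases h2 : (p : ℝ) ^ α' < (N.card : ℝ)
    · calc _ ≤ (p : ℝ) ^ (-δ) * M.card * N.card := h p hp hlt M N h1 h2 χ hχ hF
        _ ≤ _ := by gcongr
    · push Not at h2
      have h3 : (N.card : ℝ) ≤ (p : ℝ) ^ (-η) * B.card := by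
        calc (N.card : ℝ) ≤ (p : ℝ) ^ α' := h2
          _ = (p : ℝ) ^ (-η) * (p : ℝ) ^ (α' + η) := by
              rw [← Real.rpow_add hp0]; congr 1; ring
          _ ≤ _ := mul_le_mul_of_nonneg_left hB.le (by positivity)
      calc _ ≤ (M.card : ℝ) * N.card := hbd M N
        _ ≤ A.card * ((p : ℝ) ^ (-min δ η) * B.card) := by
            refine mul_le_mul hMA (h3.trans ?_) (Nat.cast_nonneg _) (Nat.cast_nonneg _)
            gcongr
        _ = _ := by ring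
  · push Not at h1
    have h3 : (M.card : ℝ) ≤ (p : ℝ) ^ (-η) * A.card := by
      calc (M.card : ℝ) ≤ (p : ℝ) ^ α := h1
        _ = (p : ℝ) ^ (-η) * (p : ℝ) ^ (α + η) := by
            rw [← Real.rpow_add hp0]; congr 1; ring
        _ ≤ _ := mul_le_mul_of_nonneg_left hA.le (by positivity)
    calc _ ≤ (M.card : ℝ) * N.card := hbd M N
      _ ≤ ((p : ℝ) ^ (-min δ η) * A.card) * B.card := by
          refine mul_le_mul (h3.trans ?_) hNB (Nat.cast_nonneg _) (by positivity)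
          gcongr
      _ = _ := by ring

/-- **Transfer to correlations.** -/
theorem corr_of_saves {α α' δ η θ : ℝ} (h : Saves F α α' δ) (hθ : θ < min δ η) :
    CorrSaves F (α + η) (α' + η) θ := by
  obtain ⟨p₀, h⟩ := subsets (η := η) h
  obtain ⟨p₁, hp₁⟩ := large 16 (min δ η - θ) (by linarith)
  refine ⟨p₀ + p₁, fun p hp hlt A B hA hB k ψ ⟨i, hi, hF⟩ => ?_⟩
  have : Fact p.Prime := ⟨hp⟩
  have hp0 : (0 : ℝ) < p := by exact_mod_cast hp.pos
  refine corr A B (fun i a b => ψ i (a + b)) (fun i a b => norm_le_one _ _) _ i fun v hv => ?_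
  refine (weights A B (fun a b => ψ i (a + b)) (fun a b => norm_le_one _ _) _
    (h p hp (by omega) A B hA hB (ψ i) hi hF) v hv).trans ?_
  have h1 : 16 * (p : ℝ) ^ (-min δ η) ≤ (p : ℝ) ^ (-θ) := by
    calc 16 * (p : ℝ) ^ (-min δ η) ≤ (p : ℝ) ^ (min δ η - θ) * (p : ℝ) ^ (-min δ η) :=
          mul_le_mul_of_nonneg_right (hp₁ p (by omega)) (by positivity)
      _ = _ := by rw [← Real.rpow_add hp0]; congr 1; ring
  calc (A.card : ℝ) * (16 * ((p : ℝ) ^ (-min δ η) * A.card * B.card)) =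
      (16 * (p : ℝ) ^ (-min δ η)) * (A.card : ℝ) ^ 2 * B.card := by ring
    _ ≤ _ := by gcongr

/-- the correlations of one character are the double sums -/
theorem CorrSaves.saves {α α' δ : ℝ} (h : CorrSaves F α α' δ) : Saves F α α' (δ / 2) := by
  obtain ⟨p₀, h⟩ := h
  refine ⟨p₀, fun p hp hlt A B hA hB χ hχ hF => ?_⟩
  have : Fact p.Prime := ⟨hp⟩
  have hp0 : (0 : ℝ) < p := by exact_mod_cast hp.pos
  have h1 := h p hp hlt A B hA hB 1 (fun _ => χ) ⟨0, hχ, hF⟩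
  have h2 : ∑ b ∈ tup B 1, ‖∑ a ∈ A, ∏ i, χ (a + b i)‖ ^ 2 = ∑ b ∈ B, ‖∑ a ∈ A, χ (a + b)‖ ^ 2 := by
    refine sum_nbij' (fun b => b 0) (fun x _ => x) ?_ ?_ ?_ ?_ ?_
    · intro b hb; exact Fintype.mem_piFinset.1 hb 0
    · intro x hx; exact Fintype.mem_piFinset.2 fun _ => hx
    · intro b _; funext i; rw [Subsingleton.elim i 0]
    · intro x _; rfl
    · intro b _; simp
  rw [h2, pow_one] at h1
  have h3 : (∑ b ∈ B, ‖∑ a ∈ A, χ (a + b)‖) ^ 2 ≤ B.card * ∑ b ∈ B, ‖∑ a ∈ A, χ (a + b)‖ ^ 2 :=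
    sq_sum_le_card_mul_sum_sq
  have h4 : ‖∑ a ∈ A, ∑ b ∈ B, χ (a + b)‖ ≤ ∑ b ∈ B, ‖∑ a ∈ A, χ (a + b)‖ := by
    rw [sum_comm]; exact norm_sum_le _ _
  have h5 : ‖∑ a ∈ A, ∑ b ∈ B, χ (a + b)‖ ^ 2 ≤ ((p : ℝ) ^ (-(δ / 2)) * A.card * B.card) ^ 2 := by
    have e : ((p : ℝ) ^ (-(δ / 2))) ^ 2 = (p : ℝ) ^ (-δ) := by
      rw [← Real.rpow_natCast, ← Real.rpow_mul hp0.le]; congr 1; push_cast; ring
    calc _ ≤ (∑ b ∈ B, ‖∑ a ∈ A, χ (a + b)‖) ^ 2 := pow_le_pow_left₀ (norm_nonneg _) h4 2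
      _ ≤ _ := h3
      _ ≤ B.card * ((p : ℝ) ^ (-δ) * (A.card : ℝ) ^ 2 * B.card) := by gcongr
      _ = _ := by rw [mul_pow, mul_pow, e]; ring
  exact (abs_le_of_sq_le_sq' h5 (by positivity)).2

/-- **Transfer to patterns.** -/
theorem equi_of_saves {α α' δ η : ℝ} (hF : PowClosed F) (hα : 0 ≤ α) (hδ : 0 < δ) (hη : 0 < η)
    (h : Saves F α α' δ) : EquiSaves F (α + η) (α' + η) (min δ η / 6) := by
  obtain ⟨p₀, h⟩ := subsets (η := η) h
  have hmin : 0 < min δ η := lt_min hδ hη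
  obtain ⟨p₁, hp₁⟩ := large 80 (min δ η / 6) (by linarith)
  refine ⟨p₀ + p₁, fun p hp hlt A B hA hB χ hχ hFχ => ?_⟩
  have : Fact p.Prime := ⟨hp⟩
  have hp0 : (0 : ℝ) < p := by exact_mod_cast hp.pos
  have hp1 : (1 : ℝ) ≤ p := by exact_mod_cast hp.one_le
  have hA0 : (0 : ℝ) < A.card := (Real.rpow_pos_of_pos hp0 _).trans hA
  have hB0 : (0 : ℝ) < B.card := (Real.rpow_pos_of_pos hp0 _).trans hB
  have hA1 : A.Nonempty := card_pos.1 (by exact_mod_cast hA0)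
  have hB1 : B.Nonempty := card_pos.1 (by exact_mod_cast hB0)
  refine equi_of χ hχ A B hA1 hB1 (16 * (p : ℝ) ^ (-min δ η)) (min δ η / 6) (by positivity)
    (by positivity) ?_ ?_ ?_
  · calc 5 * (16 * (p : ℝ) ^ (-min δ η)) = 80 * (p : ℝ) ^ (-min δ η) := by ring
      _ ≤ (p : ℝ) ^ (min δ η / 6) * (p : ℝ) ^ (-min δ η) :=
          mul_le_mul_of_nonneg_right (hp₁ p (by omega)) (by positivity)
      _ = _ := by rw [← Real.rpow_add hp0]; congr 1; ring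
  · have h1 : (p : ℝ) ^ (min δ η) ≤ A.card := by
      refine le_trans ?_ hA.le
      exact Real.rpow_le_rpow_of_exponent_le hp1 ((min_le_right _ _).trans (by linarith))
    calc (1 : ℝ) = (p : ℝ) ^ (-min δ η) * (p : ℝ) ^ (min δ η) := by
          rw [← Real.rpow_add hp0]; simp
      _ ≤ (p : ℝ) ^ (-min δ η) * A.card := mul_le_mul_of_nonneg_left h1 (by positivity)
      _ ≤ 16 * (p : ℝ) ^ (-min δ η) * A.card := by
          have : 0 ≤ (p : ℝ) ^ (-min δ η) * A.card := by positivity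
          linarith
  · intro j hj v hv
    have hne := pow_ne χ hj
    have hj0 : j ≠ 0 := by have := (mem_Ico.1 hj).1; omega
    have h1 := weights A B (fun a b => (χ ^ j) (a + b)) (fun a b => norm_le_one _ _) _
      (h p hp (by omega) A B hA hB (χ ^ j) hne (hF p χ j hFχ hne)) v hv
    simp only [MulChar.pow_apply' χ hj0] at h1
    refine h1.trans (le_of_eq ?_)
    ring

/-- from patterns back to double sums, for characters of bounded order -/
theorem saves_of_equi {n : ℕ} (hn : 0 < n) {α α' δ δ' : ℝ} (hδ : 0 < δ) (hδ' : δ' < δ)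
    (h : EquiSaves (fun _ χ => χ ^ n = 1) α α' δ) : Saves (fun _ χ => χ ^ n = 1) α α' δ' := by
  obtain ⟨p₀, h⟩ := h
  obtain ⟨p₁, hp₁⟩ := large 2 (δ - δ') (by linarith)
  obtain ⟨p₂, hp₂⟩ := large n δ hδ
  refine ⟨p₀ + p₁ + p₂, fun p hp hlt A B hA hB χ hχ hF => ?_⟩
  have : Fact p.Prime := ⟨hp⟩
  have hp0 : (0 : ℝ) < p := by exact_mod_cast hp.pos
  have hm : (orderOf χ : ℝ) ≤ (p : ℝ) ^ δ := by
    have h1 : orderOf χ ≤ n := orderOf_le_of_pow_eq_one hn hF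
    exact le_trans (by exact_mod_cast h1) (hp₂ p (by omega))
  refine ((h p hp (by omega) A B hA hB χ hχ hF).saves hχ hm).trans ?_
  have h1 : 2 * (p : ℝ) ^ (-δ) ≤ (p : ℝ) ^ (-δ') := by
    calc 2 * (p : ℝ) ^ (-δ) ≤ (p : ℝ) ^ (δ - δ') * (p : ℝ) ^ (-δ) :=
          mul_le_mul_of_nonneg_right (hp₁ p (by omega)) (by positivity)
      _ = _ := by rw [← Real.rpow_add hp0]; congr 1; ring
  gcongr

/-- **All matrices.** -/
theorem EquiSaves.matrices {α α' δ : ℝ} (hδ : 0 < δ) (hα' : 0 < α') (h : EquiSaves F α α' δ) :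
    ∃ p₀ : ℕ, ∀ (p : ℕ) [Fact p.Prime], p₀ < p → ∀ A B : Finset (ZMod p),
      (p : ℝ) ^ α < (A.card : ℝ) → (p : ℝ) ^ α' < (B.card : ℝ) →
        ∀ χ : MulChar (ZMod p) ℂ, χ ≠ 1 → F p χ → ∀ k l : ℕ,
          (orderOf χ : ℝ) ^ k ≤ (p : ℝ) ^ (min δ (α' / 3)) → 2 * l * orderOf χ ^ k ≤ A.card →
            AllMatrices χ A B l k := by
  obtain ⟨p₀, h⟩ := h
  obtain ⟨p₁, hp₁⟩ := large 2 δ hδ
  obtain ⟨p₂, hp₂⟩ := large 3 (α' / 3) (by linarith)
  refine ⟨p₀ + p₁ + p₂, fun p _ hlt A B hA hB χ hχ hF k l hk hl σ hσ => ?_⟩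
  have hp : p.Prime := Fact.out
  have hp0 : (0 : ℝ) < p := by exact_mod_cast hp.pos
  have hp1 : (1 : ℝ) ≤ p := by exact_mod_cast hp.one_le
  have hB0 : (0 : ℝ) < B.card := (Real.rpow_pos_of_pos hp0 _).trans hB
  have hB1 : B.Nonempty := card_pos.1 (by exact_mod_cast hB0)
  have hBk : (0 : ℝ) < (B.card : ℝ) ^ k := by positivity
  have hm := two_le_order χ hχ
  have h1 := h p hp (by omega) A B hA hB χ hχ hF k (hk.trans
    (Real.rpow_le_rpow_of_exponent_le hp1 (min_le_left _ _)))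
  have hτ : (p : ℝ) ^ (-δ) ≤ 1 / 2 := by
    rw [Real.rpow_neg hp0.le, inv_eq_one_div]
    exact one_div_le_one_div_of_le (by norm_num) (hp₁ p (by omega))
  refine SP.matrices (fun a b => χ (a + b)) A B (by omega) hl ?_ σ hσ
  have h2 : (Set.ncard {b | b ∈ tup B k ∧
      ¬ Reg (fun a b => χ (a + b)) A (orderOf χ) b (1 / 2)} : ℝ) ≤ 1 / 2 * (B.card : ℝ) ^ k := by
    refine le_trans (Nat.cast_le.2 (Set.ncard_le_ncard ?_ (Set.toFinite _)))
      (h1.trans (mul_le_mul_of_nonneg_right hτ hBk.le))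
    rintro b ⟨hb, hreg⟩
    refine ⟨hb, fun hcon => hreg fun ρ hρ => (hcon ρ hρ).trans ?_⟩
    exact mul_le_mul_of_nonneg_right hτ (by positivity)
  have h3 := few_repeated B hB1 k
  have h4 : (k : ℝ) ^ 2 ≤ 1 / 3 * B.card := by
    have h5 : (k : ℝ) ≤ (p : ℝ) ^ (α' / 3) := by
      have h6 : k < 2 ^ k := Nat.lt_two_pow_self
      have h7 : k ≤ orderOf χ ^ k := h6.le.trans (Nat.pow_le_pow_left hm _)
      have h8 : (k : ℝ) ≤ (orderOf χ : ℝ) ^ k := by exact_mod_cast h7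
      exact h8.trans (hk.trans (Real.rpow_le_rpow_of_exponent_le hp1 (min_le_right _ _)))
    have h6 := hp₂ p (by omega)
    have h7 : 3 * (k : ℝ) ^ 2 ≤ B.card := by
      calc 3 * (k : ℝ) ^ 2 ≤ (p : ℝ) ^ (α' / 3) * ((p : ℝ) ^ (α' / 3)) ^ 2 := by gcongr
        _ = (p : ℝ) ^ α' := by
            rw [← Real.rpow_natCast, ← Real.rpow_mul hp0.le, ← Real.rpow_add hp0]
            congr 1; push_cast; ring
        _ ≤ _ := hB.le
    linarith
  have h5 : (Set.ncard {b : Fin k → ZMod p | b ∈ tup B k ∧ ¬ Function.Injective b} : ℝ) ≤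
      1 / 3 * (B.card : ℝ) ^ k := by
    have h7 : (Set.ncard {b : Fin k → ZMod p | b ∈ tup B k ∧ ¬ Function.Injective b} : ℝ) * B.card ≤
        (1 / 3 * (B.card : ℝ) ^ k) * B.card := by
      calc _ ≤ (k : ℝ) ^ 2 * (B.card : ℝ) ^ k := h3
        _ ≤ (1 / 3 * B.card) * (B.card : ℝ) ^ k := mul_le_mul_of_nonneg_right h4 hBk.le
        _ = _ := by ring
    exact le_of_mul_le_mul_right h7 hB0
  calc _ ≤ 1 / 2 * (B.card : ℝ) ^ k + 1 / 3 * (B.card : ℝ) ^ k := add_le_add h2 h5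
    _ < _ := by linarith

/-- **Arbitrary sets, almost all affine images.** -/
theorem few_images (ε : ℝ) (hε : 0 < ε) : ∃ c : ℝ, 0 < c ∧ ∃ δ : ℝ, 0 < δ ∧ ∃ p₀ : ℕ,
    ∀ (p : ℕ) [Fact p.Prime], p₀ < p → ∀ χ : MulChar (ZMod p) ℂ, χ ≠ 1 →
    (orderOf χ : ℝ) ≤ (p : ℝ) ^ c →
    ∀ A B : Finset (ZMod p), (p : ℝ) ^ ε ≤ A.card → (p : ℝ) ^ ε ≤ B.card →
      (({g : ZMod p × ZMod p | g.2 ≠ 0 ∧
        ¬ Equi χ A (B.image fun b => g.1 + g.2 * b) δ}.ncard : ℕ) : ℝ) ≤ (p : ℝ) ^ (1 - c) := by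
  classical
  obtain ⟨c, hc, δ, hδ, p₁, h⟩ := Pool.Agent.R111.PG.few_affine ε hε
  obtain ⟨p₂, hp₂⟩ := large 5 (min δ ε / 6) (by positivity)
  have hmin : 0 < min δ ε := lt_min hδ hε
  refine ⟨c / 2, by linarith, min δ ε / 6, by positivity, p₁ + p₂, fun p _ hlt χ hχ hm A B hA hB => ?_⟩
  have hp0 : (0 : ℝ) < p := by exact_mod_cast (Fact.out : p.Prime).pos
  have hp1 : (1 : ℝ) ≤ p := by exact_mod_cast (Fact.out : p.Prime).one_le
  have hA0 : (0 : ℝ) < A.card := (Real.rpow_pos_of_pos hp0 _).trans_le hA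
  have hB0 : (0 : ℝ) < B.card := (Real.rpow_pos_of_pos hp0 _).trans_le hB
  have hA1 : A.Nonempty := card_pos.1 (by exact_mod_cast hA0)
  have hB1 : B.Nonempty := card_pos.1 (by exact_mod_cast hB0)
  set bad : ℕ → Set (ZMod p × ZMod p) := fun j => {g : ZMod p × ZMod p | g.2 ≠ 0 ∧
    ∃ α β : ZMod p → ℂ, (p : ℝ) ^ (-δ) * (Real.sqrt (A.card * B.card) *
      (Real.sqrt (∑ a ∈ A, ‖α a‖ ^ 2) * Real.sqrt (∑ b ∈ B, ‖β b‖ ^ 2))) <
        ‖∑ a ∈ A, ∑ b ∈ B, α a * β b * (χ ^ j) (a + (g.1 + g.2 * b))‖} with hbad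
  have hsub : {g : ZMod p × ZMod p | g.2 ≠ 0 ∧
      ¬ Equi χ A (B.image fun b => g.1 + g.2 * b) (min δ ε / 6)} ⊆
        ⋃ j ∈ Ico 1 (orderOf χ), bad j := by
    rintro g ⟨hg, hne⟩
    by_contra hcon
    apply hne
    have hinj : Function.Injective fun b : ZMod p => g.1 + g.2 * b := by
      intro x y hxy
      exact mul_left_cancel₀ hg (add_left_cancel hxy)
    have hcardB : (B.image fun b => g.1 + g.2 * b).card = B.card := card_image_of_injective _ hinj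
    refine equi_of χ hχ A _ hA1 (hB1.image _) ((p : ℝ) ^ (-min δ ε)) _ (by positivity)
      (by positivity) ?_ ?_ ?_
    · calc 5 * (p : ℝ) ^ (-min δ ε) ≤ (p : ℝ) ^ (min δ ε / 6) * (p : ℝ) ^ (-min δ ε) :=
            mul_le_mul_of_nonneg_right (hp₂ p (by omega)) (by positivity)
        _ = _ := by rw [← Real.rpow_add hp0]; congr 1; ring
    · have h1 : (p : ℝ) ^ (min δ ε) ≤ A.card :=
        (Real.rpow_le_rpow_of_exponent_le hp1 (min_le_right _ _)).trans hA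
      calc (1 : ℝ) = (p : ℝ) ^ (-min δ ε) * (p : ℝ) ^ (min δ ε) := by
            rw [← Real.rpow_add hp0]; simp
        _ ≤ _ := mul_le_mul_of_nonneg_left h1 (by positivity)
    · intro j hj v hv
      have hj0 : j ≠ 0 := by have := (mem_Ico.1 hj).1; omega
      have hgj : g ∉ bad j := fun hh => hcon (Set.mem_biUnion hj hh)
      have hform : ∀ f g' : ZMod p → ℂ, ‖∑ a ∈ A, ∑ b ∈ B.image (fun b => g.1 + g.2 * b),
          f a * g' b * (χ ^ j) (a + b)‖ ≤ (p : ℝ) ^ (-δ) * (Real.sqrt (A.card *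
            (B.image fun b => g.1 + g.2 * b).card) * (Real.sqrt (∑ a ∈ A, ‖f a‖ ^ 2) *
              Real.sqrt (∑ b ∈ B.image (fun b => g.1 + g.2 * b), ‖g' b‖ ^ 2))) := by
        intro f g'
        by_contra hlt
        apply hgj
        refine ⟨hg, f, fun b => g' (g.1 + g.2 * b), ?_⟩
        push Not at hlt
        rw [hcardB, sum_image fun x _ y _ hxy => hinj hxy] at hlt
        simp only [sum_image fun x _ y _ hxy => hinj hxy] at hlt
        exact hlt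
      have h1 := weights_op A (B.image fun b => g.1 + g.2 * b) (fun a b => (χ ^ j) (a + b))
        ((p : ℝ) ^ (-δ)) (by positivity) hform v hv
      simp only [MulChar.pow_apply' χ hj0] at h1
      refine h1.trans ?_
      have h2 : ((p : ℝ) ^ (-δ)) ^ 2 ≤ (p : ℝ) ^ (-min δ ε) := by
        rw [← Real.rpow_natCast, ← Real.rpow_mul hp0.le]
        refine Real.rpow_le_rpow_of_exponent_le hp1 ?_
        have := min_le_left δ ε
        push_cast
        linarith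
      gcongr
  have hle : ∀ j ∈ Ico 1 (orderOf χ), ((bad j).ncard : ℝ) ≤ (p : ℝ) ^ (1 - c) := fun j hj =>
    h p (by omega) (χ ^ j) (pow_ne χ hj) A B hA hB
  have h3 : ((⋃ j ∈ Ico 1 (orderOf χ), bad j).ncard : ℝ) ≤ ∑ j ∈ Ico 1 (orderOf χ), ((bad j).ncard : ℝ) := by
    have : ∀ s : Finset ℕ, (⋃ j ∈ s, bad j).ncard ≤ ∑ j ∈ s, (bad j).ncard := by
      intro s
      induction s using Finset.induction_on with
      | empty => simp
      | insert a s ha ih =>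
        rw [set_biUnion_insert, sum_insert ha]
        exact (Set.ncard_union_le _ _).trans (by omega)
    exact_mod_cast this (Ico 1 (orderOf χ))
  calc _ ≤ ((⋃ j ∈ Ico 1 (orderOf χ), bad j).ncard : ℝ) := by
        exact_mod_cast Set.ncard_le_ncard hsub (Set.toFinite _)
    _ ≤ _ := h3
    _ ≤ ∑ j ∈ Ico 1 (orderOf χ), (p : ℝ) ^ (1 - c) := sum_le_sum hle
    _ ≤ (orderOf χ : ℝ) * (p : ℝ) ^ (1 - c) := by
        rw [sum_const, nsmul_eq_mul, Nat.card_Ico]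
        refine mul_le_mul_of_nonneg_right ?_ (by positivity)
        exact_mod_cast Nat.sub_le _ _
    _ ≤ (p : ℝ) ^ (c / 2) * (p : ℝ) ^ (1 - c) := by gcongr
    _ = _ := by rw [← Real.rpow_add hp0]; congr 1; ring

end Pool.Agent.V7H48.SP
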