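import Pool.Agent.V7H48.SP.Fin
import Pool.Agent.V7H48.VC.Max

/-!
# Regular tuples
-/

set_option autoImplicit false

namespace Pool.Agent.V7H48.SP

open Finset

variable {α β : Type*}

/-- the number of the `a ∈ A` with `c a x = 0` -/
noncomputable def zr (c : α → β → ℂ) (A : Finset α) (x : β) : ℕ := Set.ncard {a | a ∈ A ∧ c a x = 0}

theorem zeros_along (c : α → β → ℂ) (A : Finset α) {k : ℕ} (b : Fin k → β) :
    (A.card : ℝ) - nz c A b ≤ ∑ i, (zr c A (b i) : ℝ) := by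
  classical
  have h1 : {a | a ∈ A ∧ ∀ i, c a (b i) ≠ 0} =
      ((A.filter fun a => ∀ i, c a (b i) ≠ 0 : Finset α) : Set α) := by
    ext a; simp
  have h2 : ∀ x, {a | a ∈ A ∧ c a x = 0} = ((A.filter fun a => c a x = 0 : Finset α) : Set α) := by
    intro x; ext a; simp
  have h3 : A.card - (A.filter fun a => ∀ i, c a (b i) ≠ 0).card ≤
      ∑ i, (A.filter fun a => c a (b i) = 0).card := by
    have h4 : A \ (A.filter fun a => ∀ i, c a (b i) ≠ 0) ⊆
        univ.biUnion fun i => A.filter fun a => c a (b i) = 0 := by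
      intro a ha
      rw [mem_sdiff, mem_filter] at ha
      obtain ⟨ha1, ha2⟩ := ha
      have : ∃ i, c a (b i) = 0 := by
        by_contra hcon
        push Not at hcon
        exact ha2 ⟨ha1, hcon⟩
      obtain ⟨i, hi⟩ := this
      exact mem_biUnion.2 ⟨i, mem_univ _, mem_filter.2 ⟨ha1, hi⟩⟩
    calc _ ≤ (A \ (A.filter fun a => ∀ i, c a (b i) ≠ 0)).card := le_card_sdiff _ _
      _ ≤ _ := (card_le_card h4).trans card_biUnion_le
  rw [nz, h1, Set.ncard_coe_finset]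
  simp only [zr, h2, Set.ncard_coe_finset]
  have h5 : (A.filter fun a => ∀ i, c a (b i) ≠ 0).card ≤ A.card := card_le_card (filter_subset _ _)
  have h6 : ((A.card - (A.filter fun a => ∀ i, c a (b i) ≠ 0).card : ℕ) : ℝ) ≤
      ((∑ i, (A.filter fun a => c a (b i) = 0).card : ℕ) : ℝ) := by exact_mod_cast h3
  rw [Nat.cast_sub h5] at h6
  push_cast at h6
  exact h6

theorem nz_le (c : α → β → ℂ) (A : Finset α) {k : ℕ} (b : Fin k → β) : nz c A b ≤ A.card := by
  rw [nz, ← Set.ncard_coe_finset A]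
  exact Set.ncard_le_ncard (fun a ha => ha.1) (finite_toSet A)

/-- sums of functions of one coordinate over the tuples -/
theorem sum_coord {k : ℕ} (B : Finset β) (f : β → ℝ) (i : Fin k) :
    B.card * ∑ b ∈ tup B k, f (b i) = (B.card : ℝ) ^ k * ∑ x ∈ B, f x := by
  classical
  rw [← free_coord B (fun b => f (b i)) i]
  simp only [Function.update_self]
  rw [sum_const, nsmul_eq_mul, card_tup]

/-- **Few irregular tuples.** -/
theorem few_irregular (c : α → β → ℂ) (A : Finset α) (B : Finset β) {m : ℕ} (hm : 0 < m)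
    (hc : ∀ a b, c a b = 0 ∨ c a b ^ m = 1) (hA : A.Nonempty) (hB : B.Nonempty) (κ z : ℝ)
    (hκ : 0 ≤ κ)
    (H : ∀ j ∈ Ico 1 m, ∀ v : α → ℂ, (∀ a, ‖v a‖ ≤ 1) →
      ∑ x ∈ B, ‖∑ a ∈ A, v a * c a x ^ j‖ ^ 2 ≤ κ * (A.card : ℝ) ^ 2 * B.card)
    (Z : ∑ x ∈ B, (zr c A x : ℝ) ≤ z * A.card * B.card) (k : ℕ) (τ : ℝ) (hτ : 0 < τ) :
    (Set.ncard {b | b ∈ tup B k ∧ ¬ Reg c A m b τ} : ℝ) ≤
      (4 * (m : ℝ) ^ (2 * k) * κ / τ ^ 2 + 2 * k * z / τ) * (B.card : ℝ) ^ k := by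
  classical
  have hA0 : (0 : ℝ) < A.card := by exact_mod_cast hA.card_pos
  have hB0 : (0 : ℝ) < B.card := by exact_mod_cast hB.card_pos
  have hm0 : (0 : ℝ) < (m : ℝ) ^ k := by positivity
  set X := (tup B k).filter fun b => ∃ σ ∈ Pat m k,
    τ / 2 * (A.card / (m : ℝ) ^ k) < |(cnt c A b σ : ℝ) - nz c A b / (m : ℝ) ^ k| with hX
  set Y := (tup B k).filter fun b => τ / 2 * A.card < ∑ i, (zr c A (b i) : ℝ) with hY
  have hsub : {b | b ∈ tup B k ∧ ¬ Reg c A m b τ} ⊆ ((X ∪ Y : Finset (Fin k → β)) : Set _) := by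
    rintro b ⟨hb, hreg⟩
    rw [mem_coe, mem_union, hX, hY, mem_filter, mem_filter]
    by_contra hcon
    push Not at hcon
    obtain ⟨h1, h2⟩ := hcon
    apply hreg
    intro σ hσ
    have h3 := h1 hb σ ((mem_Pat hm σ).2 hσ)
    have h4 := (zeros_along c A b).trans (h2 hb)
    have h5 : (nz c A b : ℝ) ≤ A.card := by exact_mod_cast nz_le c A b
    have h6 : |(nz c A b : ℝ) / (m : ℝ) ^ k - A.card / (m : ℝ) ^ k| ≤
        τ / 2 * (A.card / (m : ℝ) ^ k) := by
      rw [← sub_div, abs_div, abs_of_pos hm0, div_le_iff₀ hm0, abs_sub_comm,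
        abs_of_nonneg (by linarith)]
      calc (A.card : ℝ) - nz c A b ≤ τ / 2 * A.card := h4
        _ = _ := by field_simp
    calc |(cnt c A b σ : ℝ) - A.card / (m : ℝ) ^ k| ≤
        |(cnt c A b σ : ℝ) - nz c A b / (m : ℝ) ^ k| +
          |(nz c A b : ℝ) / (m : ℝ) ^ k - A.card / (m : ℝ) ^ k| := abs_sub_le _ _ _
      _ ≤ τ / 2 * (A.card / (m : ℝ) ^ k) + τ / 2 * (A.card / (m : ℝ) ^ k) := add_le_add h3 h6
      _ = _ := by ring
  have hXc : (X.card : ℝ) ≤ 4 * (m : ℝ) ^ (2 * k) * κ / τ ^ 2 * (B.card : ℝ) ^ k := by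
    have h1 := second c A B hm hc (κ * (A.card : ℝ) ^ 2) (by positivity) H k
    have h2 : (X.card : ℝ) * (τ / 2 * (A.card / (m : ℝ) ^ k)) ^ 2 ≤
        κ * (A.card : ℝ) ^ 2 * (B.card : ℝ) ^ k := by
      calc (X.card : ℝ) * (τ / 2 * (A.card / (m : ℝ) ^ k)) ^ 2 =
          ∑ b ∈ X, (τ / 2 * (A.card / (m : ℝ) ^ k)) ^ 2 := by rw [sum_const, nsmul_eq_mul]
        _ ≤ ∑ b ∈ X, ∑ σ ∈ Pat m k, ((cnt c A b σ : ℝ) - nz c A b / (m : ℝ) ^ k) ^ 2 := by
            refine sum_le_sum fun b hb => ?_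
            obtain ⟨-, σ, hσ, h⟩ := mem_filter.1 hb
            refine le_trans ?_ (single_le_sum (fun _ _ => sq_nonneg _) hσ)
            rw [← sq_abs ((cnt c A b σ : ℝ) - _)]
            exact pow_le_pow_left₀ (by positivity) h.le 2
        _ ≤ _ := (sum_le_sum_of_subset_of_nonneg (filter_subset _ _)
            fun _ _ _ => sum_nonneg fun _ _ => sq_nonneg _).trans h1
    have e : (τ / 2 * (A.card / (m : ℝ) ^ k)) ^ 2 =
        τ ^ 2 * (A.card : ℝ) ^ 2 / (4 * (m : ℝ) ^ (2 * k)) := by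
      rw [mul_pow, div_pow, div_pow, ← pow_mul, mul_comm k 2]
      field_simp
      norm_num
    rw [e] at h2
    have h3 : 0 < τ ^ 2 * (A.card : ℝ) ^ 2 / (4 * (m : ℝ) ^ (2 * k)) := by positivity
    refine (le_div_iff₀ h3).2 h2 |>.trans (le_of_eq ?_)
    field_simp
  have hYc : (Y.card : ℝ) ≤ 2 * k * z / τ * (B.card : ℝ) ^ k := by
    have h1 : ∑ b ∈ tup B k, ∑ i, (zr c A (b i) : ℝ) ≤ k * z * A.card * (B.card : ℝ) ^ k := by
      rw [sum_comm]
      have h2 : ∀ i ∈ (univ : Finset (Fin k)), ∑ b ∈ tup B k, (zr c A (b i) : ℝ) ≤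
          z * A.card * (B.card : ℝ) ^ k := by
        intro i _
        have h3 := sum_coord B (fun x => (zr c A x : ℝ)) i
        have h4 : B.card * ∑ b ∈ tup B k, (zr c A (b i) : ℝ) ≤
            (B.card : ℝ) * (z * A.card * (B.card : ℝ) ^ k) := by
          rw [h3]
          calc (B.card : ℝ) ^ k * ∑ x ∈ B, (zr c A x : ℝ) ≤
              (B.card : ℝ) ^ k * (z * A.card * B.card) := by gcongr
            _ = _ := by ring
        exact le_of_mul_le_mul_left h4 hB0
      calc _ ≤ ∑ i : Fin k, z * A.card * (B.card : ℝ) ^ k := sum_le_sum h2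
        _ = _ := by rw [sum_const, card_univ, Fintype.card_fin, nsmul_eq_mul]; ring
    have h2 : (Y.card : ℝ) * (τ / 2 * A.card) ≤ k * z * A.card * (B.card : ℝ) ^ k := by
      calc (Y.card : ℝ) * (τ / 2 * A.card) = ∑ b ∈ Y, τ / 2 * A.card := by
            rw [sum_const, nsmul_eq_mul]
        _ ≤ ∑ b ∈ Y, ∑ i, (zr c A (b i) : ℝ) := sum_le_sum fun b hb => (mem_filter.1 hb).2.le
        _ ≤ _ := (sum_le_sum_of_subset_of_nonneg (filter_subset _ _)
            fun _ _ _ => sum_nonneg fun _ _ => Nat.cast_nonneg _).trans h1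
    refine (le_div_iff₀ (by positivity)).2 h2 |>.trans (le_of_eq ?_)
    field_simp
  calc (Set.ncard {b | b ∈ tup B k ∧ ¬ Reg c A m b τ} : ℝ) ≤ ((X ∪ Y).card : ℝ) := by
        rw [← Set.ncard_coe_finset (X ∪ Y)]
        exact_mod_cast Set.ncard_le_ncard hsub (finite_toSet _)
    _ ≤ (X.card : ℝ) + Y.card := by exact_mod_cast card_union_le X Y
    _ ≤ _ := by rw [add_mul]; exact add_le_add hXc hYc

/-- the same with one parameter -/
theorem few_irregular' (c : α → β → ℂ) (A : Finset α) (B : Finset β) {m : ℕ} (hm : 2 ≤ m)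
    (hc : ∀ a b, c a b = 0 ∨ c a b ^ m = 1) (hA : A.Nonempty) (hB : B.Nonempty) (κ : ℝ)
    (hκ : 0 ≤ κ)
    (H : ∀ j ∈ Ico 1 m, ∀ v : α → ℂ, (∀ a, ‖v a‖ ≤ 1) →
      ∑ x ∈ B, ‖∑ a ∈ A, v a * c a x ^ j‖ ^ 2 ≤ κ * (A.card : ℝ) ^ 2 * B.card)
    (Z : ∑ x ∈ B, (zr c A x : ℝ) ≤ κ * A.card * B.card) (k : ℕ) (τ : ℝ) (hτ : 0 < τ)
    (hτ1 : τ ≤ 1) :
    (Set.ncard {b | b ∈ tup B k ∧ ¬ Reg c A m b τ} : ℝ) ≤
      5 * (m : ℝ) ^ (2 * k) * κ / τ ^ 2 * (B.card : ℝ) ^ k := by
  refine (few_irregular c A B (by omega) hc hA hB κ κ hκ H Z k τ hτ).trans ?_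
  refine mul_le_mul_of_nonneg_right ?_ (by positivity)
  have h1 : (2 * k : ℝ) ≤ (m : ℝ) ^ (2 * k) := by
    have h2 : 2 * k < 2 ^ (2 * k) := Nat.lt_two_pow_self
    have h3 : 2 ^ (2 * k) ≤ m ^ (2 * k) := Nat.pow_le_pow_left hm _
    exact_mod_cast (h2.trans_le h3).le
  have h2 : 2 * k * κ / τ ≤ (m : ℝ) ^ (2 * k) * κ / τ ^ 2 := by
    have h3 : τ ^ 2 ≤ τ := by nlinarith
    calc 2 * k * κ / τ ≤ (m : ℝ) ^ (2 * k) * κ / τ := by gcongr
      _ ≤ (m : ℝ) ^ (2 * k) * κ / τ ^ 2 := by gcongr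
  calc _ ≤ 4 * (m : ℝ) ^ (2 * k) * κ / τ ^ 2 + (m : ℝ) ^ (2 * k) * κ / τ ^ 2 := by linarith
    _ = _ := by ring

/-- second moments with weights from bounds for all pairs of subsets: real weights -/
theorem cube_sets [DecidableEq α] (A : Finset α) (B : Finset β) (c : α → β → ℂ) (D : ℝ)
    (H : ∀ M ⊆ A, ∑ b ∈ B, ‖∑ a ∈ M, c a b‖ ≤ D) (v : α → ℝ)
    (hv : ∀ a, 0 ≤ v a ∧ v a ≤ 1) : ∑ b ∈ B, ‖∑ a ∈ A, (v a : ℂ) * c a b‖ ≤ D := by
  have key : ∀ S : Finset α, ∀ v : α → ℝ, (∀ a, 0 ≤ v a ∧ v a ≤ 1) →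
      (∀ a, a ∉ S → v a = 0 ∨ v a = 1) → ∑ b ∈ B, ‖∑ a ∈ A, (v a : ℂ) * c a b‖ ≤ D := by
    intro S
    induction S using Finset.induction_on with
    | empty =>
      intro v _ h
      have e : ∀ b, ∑ a ∈ A, (v a : ℂ) * c a b = ∑ a ∈ A.filter (fun a => v a = 1), c a b := by
        intro b
        rw [sum_filter]
        refine sum_congr rfl fun a _ => ?_
        rcases h a (notMem_empty a) with h0 | h1
        · rw [h0, if_neg (by norm_num)]; simp
        · rw [h1, if_pos rfl]; simp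
      simp only [e]
      exact H _ (filter_subset _ _)
    | insert s S hs ih =>
      intro v hv h
      have h0 := ih (Function.update v s 0) (fun a => by
        by_cases ha : a = s
        · subst ha; simp
        · rw [Function.update_of_ne ha]; exact hv a) (fun a ha => by
        by_cases has : a = s
        · subst has; simp
        · rw [Function.update_of_ne has]
          exact h a (by simp [has, ha]))
      have h1 := ih (Function.update v s 1) (fun a => by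
        by_cases ha : a = s
        · subst ha; simp
        · rw [Function.update_of_ne ha]; exact hv a) (fun a ha => by
        by_cases has : a = s
        · subst has; simp
        · rw [Function.update_of_ne has]
          exact h a (by simp [has, ha]))
      have hs0 := (hv s).1
      have hs1 := (hv s).2
      have hcv : ∀ b, ‖∑ a ∈ A, (v a : ℂ) * c a b‖ ≤
          (1 - v s) * ‖∑ a ∈ A, ((Function.update v s 0 a : ℝ) : ℂ) * c a b‖ +
            v s * ‖∑ a ∈ A, ((Function.update v s 1 a : ℝ) : ℂ) * c a b‖ := by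
        intro b
        have e : ∑ a ∈ A, (v a : ℂ) * c a b =
            ((1 - v s : ℝ) : ℂ) * ∑ a ∈ A, ((Function.update v s 0 a : ℝ) : ℂ) * c a b +
            ((v s : ℝ) : ℂ) * ∑ a ∈ A, ((Function.update v s 1 a : ℝ) : ℂ) * c a b := by
          rw [mul_sum, mul_sum, ← sum_add_distrib]
          refine sum_congr rfl fun a _ => ?_
          by_cases ha : a = s
          · subst ha
            simp
          · rw [Function.update_of_ne ha, Function.update_of_ne ha]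
            push_cast
            ring
        rw [e]
        refine (norm_add_le _ _).trans (le_of_eq ?_)
        rw [norm_mul, norm_mul, Complex.norm_real, Complex.norm_real,
          Real.norm_of_nonneg (by linarith), Real.norm_of_nonneg hs0]
      calc ∑ b ∈ B, ‖∑ a ∈ A, (v a : ℂ) * c a b‖ ≤ _ := sum_le_sum fun b _ => hcv b
        _ = (1 - v s) * ∑ b ∈ B, ‖∑ a ∈ A, ((Function.update v s 0 a : ℝ) : ℂ) * c a b‖ +
            v s * ∑ b ∈ B, ‖∑ a ∈ A, ((Function.update v s 1 a : ℝ) : ℂ) * c a b‖ := by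
            rw [sum_add_distrib, mul_sum, mul_sum]
        _ ≤ (1 - v s) * D + v s * D :=
            add_le_add (mul_le_mul_of_nonneg_left h0 (by linarith))
              (mul_le_mul_of_nonneg_left h1 hs0)
        _ = D := by ring
  refine key A (fun a => if a ∈ A then v a else 0) (fun a => ?_) (fun a ha => ?_) |> le_trans ?_
  · refine le_of_eq (sum_congr rfl fun b _ => ?_)
    congr 1
    refine sum_congr rfl fun a ha => ?_
    simp only [if_pos ha]
  · by_cases ha : a ∈ A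
    · simpa [ha] using hv a
    · simp [ha]
  · simp [ha]

/-- second moments with weights from bounds for all pairs of subsets -/
theorem weights (A : Finset α) (B : Finset β) (c : α → β → ℂ) (hc : ∀ a b, ‖c a b‖ ≤ 1) (D : ℝ)
    (H : ∀ M ⊆ A, ∀ N ⊆ B, ‖∑ a ∈ M, ∑ b ∈ N, c a b‖ ≤ D) (v : α → ℂ)
    (hv : ∀ a, ‖v a‖ ≤ 1) : ∑ b ∈ B, ‖∑ a ∈ A, v a * c a b‖ ^ 2 ≤ A.card * (16 * D) := by
  classical
  have h1 : ∀ M ⊆ A, ∑ b ∈ B, ‖∑ a ∈ M, c a b‖ ≤ 4 * D := by
    intro M hM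
    refine Pool.Agent.V7H48.VC.first_moment B A (fun b a => c a b) D (fun N hN M' hM' => ?_) M hM
    rw [sum_comm]
    exact H M' hM' N hN
  have h2 := fun w => cube_sets A B c (4 * D) h1 w
  have hle1 : ∀ a, |(v a).re| ≤ 1 := fun a => (Complex.abs_re_le_norm _).trans (hv a)
  have hle2 : ∀ a, |(v a).im| ≤ 1 := fun a => (Complex.abs_im_le_norm _).trans (hv a)
  have b1 := h2 (fun a => max (v a).re 0) fun a =>
    ⟨le_max_right _ _, max_le ((le_abs_self _).trans (hle1 a)) zero_le_one⟩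
  have b2 := h2 (fun a => max (-(v a).re) 0) fun a =>
    ⟨le_max_right _ _, max_le ((neg_le_abs _).trans (hle1 a)) zero_le_one⟩
  have b3 := h2 (fun a => max (v a).im 0) fun a =>
    ⟨le_max_right _ _, max_le ((le_abs_self _).trans (hle2 a)) zero_le_one⟩
  have b4 := h2 (fun a => max (-(v a).im) 0) fun a =>
    ⟨le_max_right _ _, max_le ((neg_le_abs _).trans (hle2 a)) zero_le_one⟩
  have hdec : ∀ x : ℝ, x = max x 0 - max (-x) 0 := by
    intro x
    rcases le_total 0 x with h | h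
    · rw [max_eq_left h, max_eq_right (by linarith)]; ring
    · rw [max_eq_right h, max_eq_left (by linarith)]; ring
  have hsum : ∑ b ∈ B, ‖∑ a ∈ A, v a * c a b‖ ≤ 16 * D := by
    have hb : ∀ b, ‖∑ a ∈ A, v a * c a b‖ ≤
        ‖∑ a ∈ A, ((max (v a).re 0 : ℝ) : ℂ) * c a b‖ +
        ‖∑ a ∈ A, ((max (-(v a).re) 0 : ℝ) : ℂ) * c a b‖ +
        ‖∑ a ∈ A, ((max (v a).im 0 : ℝ) : ℂ) * c a b‖ +
        ‖∑ a ∈ A, ((max (-(v a).im) 0 : ℝ) : ℂ) * c a b‖ := by
      intro b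
      have e : ∑ a ∈ A, v a * c a b =
          (∑ a ∈ A, ((max (v a).re 0 : ℝ) : ℂ) * c a b -
          ∑ a ∈ A, ((max (-(v a).re) 0 : ℝ) : ℂ) * c a b) +
          Complex.I * (∑ a ∈ A, ((max (v a).im 0 : ℝ) : ℂ) * c a b -
          ∑ a ∈ A, ((max (-(v a).im) 0 : ℝ) : ℂ) * c a b) := by
        rw [← sum_sub_distrib, ← sum_sub_distrib, mul_sum, ← sum_add_distrib]
        refine sum_congr rfl fun a _ => ?_
        have e1 : v a = ((v a).re : ℂ) + (v a).im * Complex.I := (Complex.re_add_im _).symm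
        have e2 : ((v a).re : ℂ) = ((max (v a).re 0 : ℝ) : ℂ) - ((max (-(v a).re) 0 : ℝ) : ℂ) := by
          rw [← Complex.ofReal_sub, ← hdec]
        have e3 : ((v a).im : ℂ) = ((max (v a).im 0 : ℝ) : ℂ) - ((max (-(v a).im) 0 : ℝ) : ℂ) := by
          rw [← Complex.ofReal_sub, ← hdec]
        calc v a * c a b = (((v a).re : ℂ) + (v a).im * Complex.I) * c a b := by rw [← e1]
          _ = _ := by rw [e2, e3]; ring
      rw [e]
      refine (norm_add_le _ _).trans ?_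
      rw [norm_mul, Complex.norm_I, one_mul]
      have := norm_sub_le (∑ a ∈ A, ((max (v a).re 0 : ℝ) : ℂ) * c a b)
        (∑ a ∈ A, ((max (-(v a).re) 0 : ℝ) : ℂ) * c a b)
      have := norm_sub_le (∑ a ∈ A, ((max (v a).im 0 : ℝ) : ℂ) * c a b)
        (∑ a ∈ A, ((max (-(v a).im) 0 : ℝ) : ℂ) * c a b)
      linarith
    calc _ ≤ _ := sum_le_sum fun b _ => hb b
      _ ≤ 16 * D := by
        rw [sum_add_distrib, sum_add_distrib, sum_add_distrib]
        linarith
  have hA : ∀ b, ‖∑ a ∈ A, v a * c a b‖ ≤ A.card := fun b => by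
    refine (norm_sum_le _ _).trans ?_
    calc ∑ a ∈ A, ‖v a * c a b‖ ≤ ∑ a ∈ A, (1 : ℝ) := sum_le_sum fun a _ => by
          rw [norm_mul]
          exact mul_le_one₀ (hv a) (norm_nonneg _) (hc a b)
      _ = A.card := by simp
  calc ∑ b ∈ B, ‖∑ a ∈ A, v a * c a b‖ ^ 2 ≤ ∑ b ∈ B, A.card * ‖∑ a ∈ A, v a * c a b‖ :=
        sum_le_sum fun b _ => by
          rw [sq]
          exact mul_le_mul_of_nonneg_right (hA b) (norm_nonneg _)
    _ = A.card * ∑ b ∈ B, ‖∑ a ∈ A, v a * c a b‖ := by rw [mul_sum]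
    _ ≤ _ := mul_le_mul_of_nonneg_left hsum (Nat.cast_nonneg _)

/-- second moments with weights from the operator norm -/
theorem weights_op (A : Finset α) (B : Finset β) (c : α → β → ℂ) (η : ℝ) (hη : 0 ≤ η)
    (H : ∀ f : α → ℂ, ∀ g : β → ℂ, ‖∑ a ∈ A, ∑ b ∈ B, f a * g b * c a b‖ ≤
      η * (Real.sqrt (A.card * B.card) * (Real.sqrt (∑ a ∈ A, ‖f a‖ ^ 2) *
        Real.sqrt (∑ b ∈ B, ‖g b‖ ^ 2)))) (v : α → ℂ)
    (hv : ∀ a, ‖v a‖ ≤ 1) :
    ∑ b ∈ B, ‖∑ a ∈ A, v a * c a b‖ ^ 2 ≤ η ^ 2 * (A.card : ℝ) ^ 2 * B.card := by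
  set z : β → ℂ := fun b => ∑ a ∈ A, v a * c a b with hz
  set S : ℝ := ∑ b ∈ B, ‖z b‖ ^ 2 with hS
  have hS0 : 0 ≤ S := sum_nonneg fun _ _ => sq_nonneg _
  have h1 := H v (fun b => (starRingEnd ℂ) (z b))
  have e1 : ∑ a ∈ A, ∑ b ∈ B, v a * (starRingEnd ℂ) (z b) * c a b = (S : ℂ) := by
    rw [sum_comm, hS]
    push_cast
    refine sum_congr rfl fun b _ => ?_
    have e2 : ∑ a ∈ A, v a * (starRingEnd ℂ) (z b) * c a b = z b * (starRingEnd ℂ) (z b) := by
      rw [hz]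
      simp only
      rw [sum_mul]
      exact sum_congr rfl fun a _ => by ring
    rw [e2, Complex.mul_conj, Complex.normSq_eq_norm_sq]
    push_cast
    rfl
  have e4 : ∑ b ∈ B, ‖(starRingEnd ℂ) (z b)‖ ^ 2 = S := by
    rw [hS]
    exact sum_congr rfl fun a _ => by rw [RCLike.norm_conj]
  have e3 : ∑ a ∈ A, ‖v a‖ ^ 2 ≤ A.card := by
    calc ∑ a ∈ A, ‖v a‖ ^ 2 ≤ ∑ a ∈ A, (1 : ℝ) := sum_le_sum fun a _ =>
          pow_le_one₀ (norm_nonneg _) (hv a)
      _ = A.card := by simp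
  rw [e1, e4, Complex.norm_real, Real.norm_of_nonneg hS0] at h1
  have h2 : S ^ 2 ≤ (η ^ 2 * (A.card : ℝ) ^ 2 * B.card) * S := by
    calc S ^ 2 ≤ (η * (Real.sqrt (A.card * B.card) * (Real.sqrt (∑ a ∈ A, ‖v a‖ ^ 2) *
          Real.sqrt S))) ^ 2 := pow_le_pow_left₀ hS0 h1 2
      _ = η ^ 2 * ((A.card : ℝ) * B.card) * (∑ a ∈ A, ‖v a‖ ^ 2) * S := by
          rw [mul_pow, mul_pow, mul_pow, Real.sq_sqrt (by positivity), Real.sq_sqrt (by positivity),
            Real.sq_sqrt hS0]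
          ring
      _ ≤ η ^ 2 * ((A.card : ℝ) * B.card) * A.card * S := by gcongr
      _ = _ := by ring
  rcases hS0.eq_or_lt with h3 | h3
  · rw [← h3]; positivity
  · rw [sq] at h2
    exact le_of_mul_le_mul_right h2 h3

/-- few tuples with repeated entries -/
theorem few_repeated (B : Finset β) (hB : B.Nonempty) (k : ℕ) :
    (Set.ncard {b | b ∈ tup B k ∧ ¬ Function.Injective b} : ℝ) * B.card ≤
      (k : ℝ) ^ 2 * (B.card : ℝ) ^ k := by
  classical
  have hB0 : (0 : ℝ) < B.card := by exact_mod_cast hB.card_pos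
  have hsub : {b : Fin k → β | b ∈ tup B k ∧ ¬ Function.Injective b} ⊆
      (((univ ×ˢ univ : Finset (Fin k × Fin k)).filter (fun z => z.1 ≠ z.2)).biUnion fun z =>
        (tup B k).filter fun b => b z.1 = b z.2 : Finset (Fin k → β)) := by
    rintro b ⟨hb, hinj⟩
    rw [Function.Injective] at hinj
    push Not at hinj
    obtain ⟨i, j, hij, hne⟩ := hinj
    rw [mem_coe, mem_biUnion]
    exact ⟨(i, j), mem_filter.2 ⟨by simp, hne⟩, mem_filter.2 ⟨hb, hij⟩⟩
  have h1 : ∀ z ∈ (univ ×ˢ univ : Finset (Fin k × Fin k)).filter (fun z => z.1 ≠ z.2),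
      (((tup B k).filter fun b => b z.1 = b z.2).card : ℝ) * B.card ≤ (B.card : ℝ) ^ k := by
    rintro ⟨i, j⟩ hz
    have hne : i ≠ j := (mem_filter.1 hz).2
    have h2 := free_coord B (fun b => if b i = b j then (1 : ℝ) else 0) i
    rw [← sum_filter, sum_const, nsmul_eq_mul, mul_one] at h2
    rw [mul_comm, ← h2]
    calc _ = ∑ b ∈ tup B k, (1 : ℝ) := by
          refine sum_congr rfl fun b hb => ?_
          simp only [Function.update_self, Function.update_of_ne hne.symm]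
          rw [sum_ite_eq', if_pos]
          exact (Fintype.mem_piFinset.1 hb) j
      _ ≤ _ := by rw [sum_const, nsmul_eq_mul, mul_one, card_tup]
  have h2 : (Set.ncard {b : Fin k → β | b ∈ tup B k ∧ ¬ Function.Injective b} : ℝ) ≤
      ∑ z ∈ (univ ×ˢ univ : Finset (Fin k × Fin k)).filter (fun z => z.1 ≠ z.2),
        (((tup B k).filter fun b => b z.1 = b z.2).card : ℝ) := by
    have h3 := Set.ncard_le_ncard hsub (finite_toSet _)
    rw [Set.ncard_coe_finset] at h3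
    exact_mod_cast h3.trans card_biUnion_le
  calc _ ≤ (∑ z ∈ (univ ×ˢ univ : Finset (Fin k × Fin k)).filter (fun z => z.1 ≠ z.2),
        (((tup B k).filter fun b => b z.1 = b z.2).card : ℝ)) * B.card := by gcongr
    _ ≤ ∑ z ∈ (univ ×ˢ univ : Finset (Fin k × Fin k)).filter (fun z => z.1 ≠ z.2),
        (B.card : ℝ) ^ k := by
        rw [sum_mul]
        exact sum_le_sum h1
    _ ≤ _ := by
        rw [sum_const, nsmul_eq_mul]
        refine mul_le_mul_of_nonneg_right ?_ (by positivity)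
        have : ((univ ×ˢ univ : Finset (Fin k × Fin k)).filter (fun z => z.1 ≠ z.2)).card ≤ k ^ 2 := by
          refine (card_le_card (filter_subset _ _)).trans (le_of_eq ?_)
          rw [card_product, card_univ, Fintype.card_fin, sq]
        exact_mod_cast this

/-- Every matrix with entries in the `m`-th roots of unity occurs. -/
theorem matrices (c : α → β → ℂ) (A : Finset α) (B : Finset β) {m : ℕ} (hm : 0 < m) {k l : ℕ}
    (hA : 2 * l * m ^ k ≤ A.card)
    (hcount : (Set.ncard {b | b ∈ tup B k ∧ ¬ Reg c A m b (1 / 2)} : ℝ) +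
      Set.ncard {b | b ∈ tup B k ∧ ¬ Function.Injective b} < (B.card : ℝ) ^ k)
    (σ : Fin l → Fin k → ℂ) (hσ : ∀ i j, σ i j ^ m = 1) :
    ∃ a : Fin l → α, ∃ b : Fin k → β, Function.Injective a ∧ Function.Injective b ∧
      (∀ i, a i ∈ A) ∧ (∀ j, b j ∈ B) ∧ ∀ i j, c (a i) (b j) = σ i j := by
  classical
  obtain ⟨b, hb, hreg, hinj⟩ : ∃ b ∈ tup B k, Reg c A m b (1 / 2) ∧ Function.Injective b := by
    by_contra hcon
    push Not at hcon
    have h1 : ((tup B k : Finset (Fin k → β)) : Set (Fin k → β)) ⊆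
        {b | b ∈ tup B k ∧ ¬ Reg c A m b (1 / 2)} ∪ {b | b ∈ tup B k ∧ ¬ Function.Injective b} := by
      intro b hb
      rw [mem_coe] at hb
      by_cases h : Reg c A m b (1 / 2)
      · exact Or.inr ⟨hb, hcon b hb h⟩
      · exact Or.inl ⟨hb, h⟩
    have hf1 : {b | b ∈ tup B k ∧ ¬ Reg c A m b (1 / 2)}.Finite :=
      (finite_toSet (tup B k)).subset fun b hb => hb.1
    have hf2 : {b | b ∈ tup B k ∧ ¬ Function.Injective b}.Finite :=
      (finite_toSet (tup B k)).subset fun b hb => hb.1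
    have h2 := (Set.ncard_le_ncard h1 (hf1.union hf2)).trans (Set.ncard_union_le _ _)
    rw [Set.ncard_coe_finset] at h2
    have h3 := card_tup B k
    have h4 : ((tup B k).card : ℝ) ≤ (Set.ncard {b | b ∈ tup B k ∧ ¬ Reg c A m b (1 / 2)} : ℝ) +
      Set.ncard {b | b ∈ tup B k ∧ ¬ Function.Injective b} := by exact_mod_cast h2
    rw [h3] at h4
    linarith
  have hm0 : (0 : ℝ) < (m : ℝ) ^ k := by positivity
  have hbig : ∀ i, l ≤ (A.filter fun a => ∀ j, c a (b j) = σ i j).card := by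
    intro i
    have h1 := hreg (σ i) (hσ i)
    have h2 : (cnt c A b (σ i) : ℝ) ≥ 1 / 2 * (A.card / (m : ℝ) ^ k) := by
      have := neg_abs_le ((cnt c A b (σ i) : ℝ) - A.card / (m : ℝ) ^ k)
      linarith
    have h3 : (l : ℝ) ≤ 1 / 2 * (A.card / (m : ℝ) ^ k) := by
      have h4 : (2 * l * m ^ k : ℝ) ≤ A.card := by exact_mod_cast hA
      rw [← mul_div_assoc, le_div_iff₀ hm0]
      linarith
    have h5 : cnt c A b (σ i) = (A.filter fun a => ∀ j, c a (b j) = σ i j).card := by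
      rw [cnt, ← Set.ncard_coe_finset]
      congr 1
      ext a; simp
    rw [← h5]
    exact_mod_cast h3.trans h2
  obtain ⟨a, ha1, ha2⟩ := (Finset.all_card_le_biUnion_card_iff_exists_injective
    (fun i : Fin l => A.filter fun a => ∀ j, c a (b j) = σ i j)).1 fun s => by
      rcases s.eq_empty_or_nonempty with rfl | ⟨i, hi⟩
      · simp
      · calc s.card ≤ l := by
              simpa using card_le_univ s
          _ ≤ _ := hbig i
          _ ≤ _ := card_le_card (subset_biUnion_of_mem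
              (fun i : Fin l => A.filter fun a => ∀ j, c a (b j) = σ i j) hi)
  exact ⟨a, b, ha1, hinj, fun i => (mem_filter.1 (ha2 i)).1, fun j => Fintype.mem_piFinset.1 hb j,
    fun i j => (mem_filter.1 (ha2 i)).2 j⟩

end Pool.Agent.V7H48.SP
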