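import Mathlib

/-!
# Patterns of character values along tuples: definitions
-/

set_option autoImplicit false

namespace Pool.Agent.V7H48.SP

open Finset

variable {α β : Type*}

/-- the tuples of `k` elements of `B` -/
abbrev tup (B : Finset β) (k : ℕ) : Finset (Fin k → β) := Fintype.piFinset fun _ => B

/-- the number of the `a ∈ A` with the pattern `σ` along the tuple `b` -/
noncomputable def cnt (c : α → β → ℂ) (A : Finset α) {k : ℕ} (b : Fin k → β) (σ : Fin k → ℂ) : ℕ :=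
  Set.ncard {a | a ∈ A ∧ ∀ i, c a (b i) = σ i}

/-- the number of the `a ∈ A` with nonzero values along the tuple `b` -/
noncomputable def nz (c : α → β → ℂ) (A : Finset α) {k : ℕ} (b : Fin k → β) : ℕ :=
  Set.ncard {a | a ∈ A ∧ ∀ i, c a (b i) ≠ 0}

/-- the patterns with `k` entries which are `m`-th roots of unity -/
noncomputable def Pat (m k : ℕ) : Finset (Fin k → ℂ) :=
  Fintype.piFinset fun _ => Polynomial.nthRootsFinset m (1 : ℂ)

/-- All patterns of `m`-th roots of unity along the tuple `b` are taken by the expected number of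
`a ∈ A`, up to a relative error `τ`. -/
def Reg (c : α → β → ℂ) (A : Finset α) (m : ℕ) {k : ℕ} (b : Fin k → β) (τ : ℝ) : Prop :=
  ∀ σ : Fin k → ℂ, (∀ i, σ i ^ m = 1) →
    |(cnt c A b σ : ℝ) - A.card / (m : ℝ) ^ k| ≤ τ * (A.card / (m : ℝ) ^ k)

/-- Every `l × k` matrix of `m`-th roots of unity, `m` the order of `χ`, is of the form `χ (a i + b j)` with
different `a i ∈ A` and different `b j ∈ B` -/
def AllMatrices {p : ℕ} (χ : MulChar (ZMod p) ℂ) (A B : Finset (ZMod p)) (l k : ℕ) : Prop :=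
  ∀ σ : Fin l → Fin k → ℂ, (∀ i j, σ i j ^ orderOf χ = 1) →
    ∃ a : Fin l → ZMod p, ∃ b : Fin k → ZMod p, Function.Injective a ∧ Function.Injective b ∧
      (∀ i, a i ∈ A) ∧ (∀ j, b j ∈ B) ∧ ∀ i j, χ (a i + b j) = σ i j

/-- **Equidistribution of the patterns.**  With `m` the order of `χ`: for all `k` with
`m ^ k ≤ p ^ δ` and all but `p ^ (-δ) |B| ^ k` tuples `(b 1, …, b k)` in `B ^ k`, each of the `m ^ k`
patterns of `m`-th roots of unity is the pattern `(χ (a + b 1), …, χ (a + b k))` of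
`(1 ± p ^ (-δ)) |A| / m ^ k` elements `a ∈ A`. -/
def Equi {p : ℕ} (χ : MulChar (ZMod p) ℂ) (A B : Finset (ZMod p)) (δ : ℝ) : Prop :=
  ∀ k : ℕ, (orderOf χ : ℝ) ^ k ≤ (p : ℝ) ^ δ →
    (Set.ncard {b | b ∈ tup B k ∧
      ¬ Reg (fun a b => χ (a + b)) A (orderOf χ) b ((p : ℝ) ^ (-δ))} : ℝ) ≤
        (p : ℝ) ^ (-δ) * (B.card : ℝ) ^ k

/-- The bound of the page for all large primes, all sets `A`, `B` with more than `p ^ α`, `p ^ α'`
elements and the nontrivial characters in the family `F`, with the saving `p ^ (-δ)`. -/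
def Bound (F : ∀ p : ℕ, MulChar (ZMod p) ℂ → Prop) (α α' δ : ℝ) : Prop :=
  ∃ p₀ : ℕ, ∀ p : ℕ, p.Prime → p₀ < p → ∀ A B : Finset (ZMod p),
    (p : ℝ) ^ α < (A.card : ℝ) → (p : ℝ) ^ α' < (B.card : ℝ) →
      ∀ χ : MulChar (ZMod p) ℂ, χ ≠ 1 → F p χ →
        ‖∑ a ∈ A, ∑ b ∈ B, χ (a + b)‖ ≤ (p : ℝ) ^ (-δ) * (A.card : ℝ) * (B.card : ℝ)

/-- Equidistribution of the patterns for all large primes, all sets `A`, `B` with more than
`p ^ α`, `p ^ α'` elements and the nontrivial characters in the family `F`. -/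
def EquiSaves (F : ∀ p : ℕ, MulChar (ZMod p) ℂ → Prop) (α α' δ : ℝ) : Prop :=
  ∃ p₀ : ℕ, ∀ p : ℕ, p.Prime → p₀ < p → ∀ A B : Finset (ZMod p),
    (p : ℝ) ^ α < (A.card : ℝ) → (p : ℝ) ^ α' < (B.card : ℝ) →
      ∀ χ : MulChar (ZMod p) ℂ, χ ≠ 1 → F p χ → Equi χ A B δ

/-- Correlations of any number of characters, one of which is in the family `F` and nontrivial,
along almost all tuples, for all large primes and all sets `A`, `B` with more than `p ^ α`,
`p ^ α'` elements. -/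
def CorrSaves (F : ∀ p : ℕ, MulChar (ZMod p) ℂ → Prop) (α α' δ : ℝ) : Prop :=
  ∃ p₀ : ℕ, ∀ p : ℕ, p.Prime → p₀ < p → ∀ A B : Finset (ZMod p),
    (p : ℝ) ^ α < (A.card : ℝ) → (p : ℝ) ^ α' < (B.card : ℝ) →
      ∀ (k : ℕ) (ψ : Fin k → MulChar (ZMod p) ℂ), (∃ i, ψ i ≠ 1 ∧ F p (ψ i)) →
        ∑ b ∈ tup B k, ‖∑ a ∈ A, ∏ i, ψ i (a + b i)‖ ^ 2 ≤
          (p : ℝ) ^ (-δ) * (A.card : ℝ) ^ 2 * (B.card : ℝ) ^ k

/-- the family is closed under nontrivial powers -/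
def PowClosed (F : ∀ p : ℕ, MulChar (ZMod p) ℂ → Prop) : Prop :=
  ∀ (p : ℕ) (χ : MulChar (ZMod p) ℂ) (j : ℕ), F p χ → χ ^ j ≠ 1 → F p (χ ^ j)

end Pool.Agent.V7H48.SP
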