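import Pool.Agent.V7H48.SP.Defs

/-!
# Patterns of a kernel with values in the roots of unity

For a kernel `c` on `A × B` whose values are `0` or `m`-th roots of unity, the numbers of the
`a ∈ A` with prescribed values `c (a, b 1), …, c (a, b k)` are on average over the tuples `b ∈ B ^ k`
close, in mean square over all the `m ^ k` patterns, to the number of the `a` with nonzero values
divided by `m ^ k`.
-/

set_option autoImplicit false

namespace Pool.Agent.V7H48.SP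

open Finset

variable {α β : Type*}

theorem card_tup (B : Finset β) (k : ℕ) : ((tup B k).card : ℝ) = (B.card : ℝ) ^ k := by
  rw [tup, Fintype.card_piFinset_const]
  push_cast
  rfl

/-- Sums over tuples: freeing one coordinate. -/
theorem free_coord {k : ℕ} (B : Finset β) (G : (Fin k → β) → ℝ) (i : Fin k) :
    ∑ b ∈ tup B k, ∑ x ∈ B, G (Function.update b i x) = B.card * ∑ b ∈ tup B k, G b := by
  classical
  rw [← sum_product']
  have h1 : ∑ z ∈ tup B k ×ˢ B, G (Function.update z.1 i z.2) = ∑ z ∈ tup B k ×ˢ B, G z.1 := by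
    refine sum_nbij' (fun z => (Function.update z.1 i z.2, z.1 i))
      (fun z => (Function.update z.1 i z.2, z.1 i)) ?_ ?_ ?_ ?_ ?_
    · rintro ⟨b, x⟩ h
      rw [mem_product, Fintype.mem_piFinset] at h ⊢
      refine ⟨fun j => ?_, h.1 i⟩
      by_cases hj : j = i
      · subst hj; simpa using h.2
      · simpa [Function.update_of_ne hj] using h.1 j
    · rintro ⟨b, x⟩ h
      rw [mem_product, Fintype.mem_piFinset] at h ⊢
      refine ⟨fun j => ?_, h.1 i⟩
      by_cases hj : j = i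
      · subst hj; simpa using h.2
      · simpa [Function.update_of_ne hj] using h.1 j
    · rintro ⟨b, x⟩ _
      simp
    · rintro ⟨b, x⟩ _
      simp
    · rintro ⟨b, x⟩ _
      rfl
  rw [h1, sum_product]
  simp only [sum_const, nsmul_eq_mul]
  rw [mul_sum]

/-- **Correlations along almost all tuples.**  If one of the kernels has small second moments with
all weights bounded by `1`, then so has the product. -/
theorem corr (A : Finset α) (B : Finset β) {k : ℕ} (c : Fin k → α → β → ℂ)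
    (hc : ∀ i a b, ‖c i a b‖ ≤ 1) (K : ℝ) (i : Fin k)
    (H : ∀ v : α → ℂ, (∀ a, ‖v a‖ ≤ 1) → ∑ x ∈ B, ‖∑ a ∈ A, v a * c i a x‖ ^ 2 ≤ K * B.card) :
    ∑ b ∈ tup B k, ‖∑ a ∈ A, ∏ j, c j a (b j)‖ ^ 2 ≤ K * (B.card : ℝ) ^ k := by
  classical
  rcases B.eq_empty_or_nonempty with rfl | hB
  · have hk : k ≠ 0 := by rintro rfl; exact i.elim0
    have : tup (∅ : Finset β) k = ∅ := by
      rw [← card_eq_zero, tup, Fintype.card_piFinset_const]
      simp [hk]
    rw [this]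
    simp [hk]
  have hB0 : (0 : ℝ) < B.card := by exact_mod_cast hB.card_pos
  have h1 := free_coord B (fun b => ‖∑ a ∈ A, ∏ j, c j a (b j)‖ ^ 2) i
  have h2 : ∀ b ∈ tup B k, ∑ x ∈ B, ‖∑ a ∈ A, ∏ j, c j a (Function.update b i x j)‖ ^ 2 ≤
      K * B.card := by
    intro b _
    have h3 := H (fun a => ∏ j ∈ univ.erase i, c j a (b j)) fun a => by
      rw [norm_prod]
      exact prod_le_one (fun _ _ => norm_nonneg _) fun j _ => hc j a _
    refine le_trans (le_of_eq ?_) h3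
    refine sum_congr rfl fun x _ => ?_
    congr 2
    refine sum_congr rfl fun a _ => ?_
    rw [← mul_prod_erase univ _ (mem_univ i), mul_comm]
    congr 1
    · refine prod_congr rfl fun j hj => ?_
      rw [Function.update_of_ne (ne_of_mem_erase hj)]
    · simp
  have h4 : B.card * ∑ b ∈ tup B k, ‖∑ a ∈ A, ∏ j, c j a (b j)‖ ^ 2 ≤
      (B.card : ℝ) * (K * (B.card : ℝ) ^ k) := by
    rw [← h1]
    calc _ ≤ ∑ b ∈ tup B k, K * B.card := sum_le_sum h2
      _ = _ := by rw [sum_const, nsmul_eq_mul, card_tup]; ring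
  exact le_of_mul_le_mul_left h4 hB0

theorem mem_Pat {m k : ℕ} (hm : 0 < m) (σ : Fin k → ℂ) : σ ∈ Pat m k ↔ ∀ i, σ i ^ m = 1 := by
  rw [Pat, Fintype.mem_piFinset]
  exact forall_congr' fun i => Polynomial.mem_nthRootsFinset hm _

theorem card_Pat {m k : ℕ} (hm : 0 < m) : ((Pat m k).card : ℝ) = (m : ℝ) ^ k := by
  rw [Pat, Fintype.card_piFinset_const,
    (Complex.isPrimitiveRoot_exp m hm.ne').card_nthRootsFinset]
  push_cast
  rfl

/-- orthogonality -/
theorem orth {m : ℕ} (hm : 0 < m) (z w : ℂ) (hz : z = 0 ∨ z ^ m = 1) (hw : w = 0 ∨ w ^ m = 1) :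
    ∑ j ∈ Icc 1 m, (z * (starRingEnd ℂ) w) ^ j = m * if z = w ∧ z ≠ 0 then 1 else 0 := by
  have hzero : ∑ j ∈ Icc 1 m, (0 : ℂ) ^ j = 0 := by
    refine sum_eq_zero fun j hj => ?_
    have := (mem_Icc.1 hj).1
    exact zero_pow (by omega)
  rcases hz with rfl | hz
  · rw [zero_mul, hzero, if_neg (by simp)]; simp
  have hz0 : z ≠ 0 := by
    rintro rfl
    rw [zero_pow hm.ne'] at hz
    exact zero_ne_one hz
  rcases hw with rfl | hw
  · rw [map_zero, mul_zero, hzero, if_neg (by simp [hz0])]; simp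
  have hw1 : ‖w‖ = 1 := Complex.norm_eq_one_of_pow_eq_one hw hm.ne'
  have hww : w * (starRingEnd ℂ) w = 1 := by
    rw [Complex.mul_conj, Complex.normSq_eq_norm_sq, hw1]
    simp
  set u := z * (starRingEnd ℂ) w with hu
  have hum : u ^ m = 1 := by
    rw [hu, mul_pow, hz, ← map_pow, hw]
    simp
  by_cases h : z = w
  · have hu1 : u = 1 := by rw [hu, h, hww]
    rw [hu1, if_pos ⟨h, hz0⟩]
    simp
  · have hu1 : u ≠ 1 := by
      intro h1
      apply h
      calc z = z * (w * (starRingEnd ℂ) w) := by rw [hww, mul_one]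
        _ = u * w := by rw [hu]; ring
        _ = w := by rw [h1, one_mul]
    rw [if_neg (fun h2 => h h2.1), mul_zero]
    have h2 : ∑ j ∈ Icc 1 m, u ^ j = u * ∑ j ∈ range m, u ^ j := by
      rw [mul_sum, range_eq_Ico, sum_Ico_eq_sum_range]
      rw [← Ico_succ_right_eq_Icc, sum_Ico_eq_sum_range]
      simp only [Order.succ_eq_add_one, Nat.add_sub_cancel, Nat.sub_zero]
      refine sum_congr rfl fun j _ => ?_
      rw [zero_add, add_comm, pow_succ, mul_comm]
    rw [h2, geom_sum_eq hu1, hum]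
    simp

section parseval

variable (c : α → β → ℂ) (A : Finset α) {k m : ℕ} (b : Fin k → β)

theorem cnt_eq (σ : Fin k → ℂ) :
    (cnt c A b σ : ℂ) = ∑ a ∈ A, ∏ i, if c a (b i) = σ i then (1 : ℂ) else 0 := by
  classical
  have h : {a | a ∈ A ∧ ∀ i, c a (b i) = σ i} = ((A.filter fun a => ∀ i, c a (b i) = σ i : Finset α) : Set α) := by
    ext a; simp
  rw [cnt, h, Set.ncard_coe_finset, card_filter]
  push_cast
  refine sum_congr rfl fun a _ => ?_
  rw [prod_ite_zero]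
  simp

theorem nz_eq : (nz c A b : ℂ) = ∑ a ∈ A, ∏ i, if c a (b i) ≠ 0 then (1 : ℂ) else 0 := by
  classical
  have h : {a | a ∈ A ∧ ∀ i, c a (b i) ≠ 0} = ((A.filter fun a => ∀ i, c a (b i) ≠ 0 : Finset α) : Set α) := by
    ext a; simp
  rw [nz, h, Set.ncard_coe_finset, card_filter]
  push_cast
  refine sum_congr rfl fun a _ => ?_
  rw [prod_ite_zero]
  simp

variable (hm : 0 < m) (hc : ∀ a b, c a b = 0 ∨ c a b ^ m = 1)

include hm hc

theorem sum_cnt : ∑ σ ∈ Pat m k, (cnt c A b σ : ℂ) = nz c A b := by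
  classical
  simp only [cnt_eq, nz_eq]
  rw [sum_comm]
  refine sum_congr rfl fun a _ => ?_
  rw [Pat, ← prod_univ_sum (fun _ => Polynomial.nthRootsFinset m (1 : ℂ))
    (fun i ζ => if c a (b i) = ζ then (1 : ℂ) else 0)]
  refine prod_congr rfl fun i _ => ?_
  rw [sum_ite_eq]
  refine if_congr ?_ rfl rfl
  rw [Polynomial.mem_nthRootsFinset hm]
  constructor
  · intro h h0
    rw [h0, zero_pow hm.ne'] at h
    exact zero_ne_one h
  · intro h
    exact (hc a (b i)).resolve_left h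

theorem sum_cnt_sq : (m : ℂ) ^ k * ∑ σ ∈ Pat m k, (cnt c A b σ : ℂ) ^ 2 =
    ∑ j ∈ tup (Icc 1 m) k, ((‖∑ a ∈ A, ∏ i, c a (b i) ^ j i‖ ^ 2 : ℝ) : ℂ) := by
  classical
  have h1 : ∑ σ ∈ Pat m k, (cnt c A b σ : ℂ) ^ 2 = ∑ a ∈ A, ∑ a' ∈ A, ∏ i,
      if c a (b i) = c a' (b i) ∧ c a (b i) ≠ 0 then (1 : ℂ) else 0 := by
    have h2 : ∀ σ ∈ Pat m k, (cnt c A b σ : ℂ) ^ 2 = ∑ a ∈ A, ∑ a' ∈ A, ∏ i,
        (if c a (b i) = σ i then (1 : ℂ) else 0) * (if c a' (b i) = σ i then (1 : ℂ) else 0) := by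
      intro σ _
      rw [sq, cnt_eq, sum_mul_sum]
      simp only [prod_mul_distrib]
    rw [sum_congr rfl h2, sum_comm]
    refine sum_congr rfl fun a _ => ?_
    rw [sum_comm]
    refine sum_congr rfl fun a' _ => ?_
    rw [Pat, ← prod_univ_sum (fun _ => Polynomial.nthRootsFinset m (1 : ℂ))
      (fun i ζ => (if c a (b i) = ζ then (1 : ℂ) else 0) * (if c a' (b i) = ζ then (1 : ℂ) else 0))]
    refine prod_congr rfl fun i _ => ?_
    simp only [ite_mul, one_mul, zero_mul, sum_ite_eq]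
    by_cases h3 : c a (b i) = 0
    · rw [if_neg, if_neg (fun h => h.2 h3)]
      rw [h3, Polynomial.mem_nthRootsFinset hm, zero_pow hm.ne']
      exact zero_ne_one
    · rw [if_pos ((Polynomial.mem_nthRootsFinset hm _).2 ((hc a (b i)).resolve_left h3))]
      refine if_congr ?_ rfl rfl
      constructor
      · exact fun h => ⟨h.symm, h3⟩
      · exact fun h => h.1.symm
  have h2 : ∀ j : Fin k → ℕ, ((‖∑ a ∈ A, ∏ i, c a (b i) ^ j i‖ ^ 2 : ℝ) : ℂ) =
      ∑ a ∈ A, ∑ a' ∈ A, ∏ i, (c a (b i) * (starRingEnd ℂ) (c a' (b i))) ^ j i := by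
    intro j
    rw [← Complex.normSq_eq_norm_sq, ← Complex.mul_conj, map_sum, sum_mul_sum]
    refine sum_congr rfl fun a _ => sum_congr rfl fun a' _ => ?_
    rw [map_prod, ← prod_mul_distrib]
    refine prod_congr rfl fun i _ => ?_
    rw [mul_pow, map_pow]
  simp only [h2]
  rw [h1, mul_sum]
  refine Eq.symm (Eq.trans sum_comm ?_)
  refine sum_congr rfl fun a _ => ?_
  rw [mul_sum]
  refine Eq.trans sum_comm ?_
  refine sum_congr rfl fun a' _ => Eq.symm ?_
  rw [tup, ← prod_univ_sum (fun _ => Icc 1 m)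
    (fun i j => (c a (b i) * (starRingEnd ℂ) (c a' (b i))) ^ j)]
  have h3 : (m : ℂ) ^ k = ∏ _i : Fin k, (m : ℂ) := by simp
  rw [h3, ← prod_mul_distrib]
  refine prod_congr rfl fun i _ => ?_
  rw [orth hm _ _ (hc _ _) (hc _ _)]

/-- Parseval -/
theorem parseval : ∑ σ ∈ Pat m k, ((cnt c A b σ : ℝ) - nz c A b / (m : ℝ) ^ k) ^ 2 =
    (∑ j ∈ (tup (Icc 1 m) k).erase (fun _ => m), ‖∑ a ∈ A, ∏ i, c a (b i) ^ j i‖ ^ 2) /
      (m : ℝ) ^ k := by
  classical
  have hm0 : (0 : ℝ) < (m : ℝ) ^ k := by positivity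
  have h1 : ∑ σ ∈ Pat m k, (cnt c A b σ : ℝ) = nz c A b := by
    exact_mod_cast sum_cnt c A b hm hc
  have h2 : (m : ℝ) ^ k * ∑ σ ∈ Pat m k, (cnt c A b σ : ℝ) ^ 2 =
      ∑ j ∈ tup (Icc 1 m) k, ‖∑ a ∈ A, ∏ i, c a (b i) ^ j i‖ ^ 2 := by
    have := sum_cnt_sq c A b hm hc
    exact_mod_cast this
  have hmem : (fun _ => m) ∈ tup (Icc 1 m) k := by
    rw [tup, Fintype.mem_piFinset]
    exact fun _ => mem_Icc.2 ⟨hm, le_rfl⟩
  have h3 : ‖∑ a ∈ A, ∏ i, c a (b i) ^ m‖ ^ 2 = (nz c A b : ℝ) ^ 2 := by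
    have e : ∑ a ∈ A, ∏ i, c a (b i) ^ m = (nz c A b : ℂ) := by
      rw [nz_eq]
      refine sum_congr rfl fun a _ => prod_congr rfl fun i _ => ?_
      rcases hc a (b i) with h | h
      · rw [h, if_neg (by simp), zero_pow hm.ne']
      · rw [h, if_pos]
        intro h0
        rw [h0, zero_pow hm.ne'] at h
        exact zero_ne_one h
    rw [e, Complex.norm_natCast]
  rw [← add_sum_erase _ _ hmem, h3] at h2
  have h4 : ∑ σ ∈ Pat m k, ((cnt c A b σ : ℝ) - nz c A b / (m : ℝ) ^ k) ^ 2 =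
      ∑ σ ∈ Pat m k, (cnt c A b σ : ℝ) ^ 2 - (nz c A b : ℝ) ^ 2 / (m : ℝ) ^ k := by
    have e : ∀ σ ∈ Pat m k, ((cnt c A b σ : ℝ) - nz c A b / (m : ℝ) ^ k) ^ 2 =
        (cnt c A b σ : ℝ) ^ 2 - 2 * (nz c A b / (m : ℝ) ^ k) * cnt c A b σ +
          (nz c A b / (m : ℝ) ^ k) ^ 2 := fun σ _ => by ring
    rw [sum_congr rfl e, sum_add_distrib, sum_sub_distrib, ← mul_sum, h1, sum_const, nsmul_eq_mul,
      card_Pat hm]
    field_simp
    ring
  rw [h4, eq_div_iff hm0.ne', sub_mul, div_mul_cancel₀ _ hm0.ne']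
  linarith

end parseval

/-- **Second moment over tuples and patterns.** -/
theorem second (c : α → β → ℂ) (A : Finset α) (B : Finset β) {m : ℕ} (hm : 0 < m)
    (hc : ∀ a b, c a b = 0 ∨ c a b ^ m = 1) (K : ℝ) (hK : 0 ≤ K)
    (H : ∀ j ∈ Ico 1 m, ∀ v : α → ℂ, (∀ a, ‖v a‖ ≤ 1) →
      ∑ x ∈ B, ‖∑ a ∈ A, v a * c a x ^ j‖ ^ 2 ≤ K * B.card) (k : ℕ) :
    ∑ b ∈ tup B k, ∑ σ ∈ Pat m k, ((cnt c A b σ : ℝ) - nz c A b / (m : ℝ) ^ k) ^ 2 ≤
      K * (B.card : ℝ) ^ k := by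
  classical
  have hm0 : (0 : ℝ) < (m : ℝ) ^ k := by positivity
  have hn : ∀ a b, ‖c a b‖ ≤ 1 := by
    intro a b
    rcases hc a b with h | h
    · rw [h]; simp
    · exact (Complex.norm_eq_one_of_pow_eq_one h hm.ne').le
  simp only [parseval c A _ hm hc]
  rw [← sum_div, sum_comm, div_le_iff₀ hm0]
  have h1 : ∀ j ∈ (tup (Icc 1 m) k).erase (fun _ => m),
      ∑ b ∈ tup B k, ‖∑ a ∈ A, ∏ i, c a (b i) ^ j i‖ ^ 2 ≤ K * (B.card : ℝ) ^ k := by
    intro j hj
    obtain ⟨hj1, hj2⟩ := mem_erase.1 hj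
    rw [tup, Fintype.mem_piFinset] at hj2
    obtain ⟨i, hi⟩ : ∃ i, j i ≠ m := by
      by_contra hcon
      push Not at hcon
      exact hj1 (funext hcon)
    refine corr A B (fun i a b => c a b ^ j i) (fun i a b => ?_) K i ?_
    · rw [norm_pow]
      exact pow_le_one₀ (norm_nonneg _) (hn a b)
    · refine H (j i) ?_
      have := mem_Icc.1 (hj2 i)
      rw [mem_Ico]
      omega
  calc _ ≤ ∑ j ∈ (tup (Icc 1 m) k).erase (fun _ => m), K * (B.card : ℝ) ^ k := sum_le_sum h1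
    _ ≤ _ := by
      rw [sum_const, nsmul_eq_mul]
      have h2 : (((tup (Icc 1 m) k).erase (fun _ => m)).card : ℝ) ≤ (m : ℝ) ^ k := by
        have h3 : ((tup (Icc 1 m) k).card : ℝ) = (m : ℝ) ^ k := by
          rw [card_tup]; simp
        rw [← h3]
        exact_mod_cast card_le_card (erase_subset _ _)
      calc _ ≤ (m : ℝ) ^ k * (K * (B.card : ℝ) ^ k) := by gcongr
        _ = _ := by ring

end Pool.Agent.V7H48.SP
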