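import Pool.Agent.V7H48.SP.Reg
import Pool.Agent.V7H48.VC.Paley

/-!
# Patterns of character values along tuples
-/

set_option autoImplicit false

namespace Pool.Agent.V7H48.SP

open Finset Pool.Agent.N793.PG

section onePrime

variable {p : ℕ} [Fact p.Prime] (χ : MulChar (ZMod p) ℂ)

/-- the second moment with complex weights -/
theorem second_c (hχ : χ ≠ 1) (A : Finset (ZMod p)) (v : ZMod p → ℂ) :
    ∑ x : ZMod p, ‖∑ a ∈ A, v a * χ (a + x)‖ ^ 2 ≤ p * ∑ a ∈ A, ‖v a‖ ^ 2 := by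
  classical
  obtain ⟨D, hD⟩ : ∃ D : ℝ, ∀ y : ZMod p,
      (∑ x : ZMod p, χ (x + y) * (starRingEnd ℂ) (χ (x + y))) = (D : ℂ) ∧ D ≤ p - 1 := by
    refine ⟨∑ z : ZMod p, ‖χ z‖ ^ 2, fun y => ⟨?_, ?_⟩⟩
    · push_cast
      refine Fintype.sum_equiv (Equiv.addRight y) _ _ fun x => ?_
      simp only [Equiv.coe_addRight]
      rw [Complex.mul_conj']
    · rw [← Finset.add_sum_erase univ _ (mem_univ (0 : ZMod p)), MulChar.map_zero χ, norm_zero]
      have : ∑ x ∈ (univ : Finset (ZMod p)).erase 0, ‖χ x‖ ^ 2 ≤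
          ∑ _x ∈ (univ : Finset (ZMod p)).erase 0, (1 : ℝ) :=
        sum_le_sum fun x _ => pow_le_one₀ (norm_nonneg _) (norm_le_one χ x)
      rw [sum_const, card_erase_of_mem (mem_univ _), card_univ, ZMod.card, nsmul_eq_mul,
        mul_one] at this
      have hp := (Fact.out : p.Prime).one_le
      push_cast [Nat.cast_sub hp] at this
      simpa using this
  have hexp : ((∑ x : ZMod p, ‖∑ a ∈ A, v a * χ (a + x)‖ ^ 2 : ℝ) : ℂ) =
      ∑ b ∈ A, ∑ c ∈ A, v b * (starRingEnd ℂ) (v c) *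
        ∑ x : ZMod p, χ (x + b) * (starRingEnd ℂ) (χ (x + c)) := by
    push_cast
    have h1 : ∀ x : ZMod p, ((‖∑ a ∈ A, v a * χ (a + x)‖ : ℂ)) ^ 2 =
        ∑ b ∈ A, ∑ c ∈ A, v b * (starRingEnd ℂ) (v c) *
          (χ (x + b) * (starRingEnd ℂ) (χ (x + c))) := by
      intro x
      rw [← Complex.mul_conj', map_sum, sum_mul_sum]
      refine sum_congr rfl fun b _ => sum_congr rfl fun c _ => ?_
      rw [map_mul, add_comm b x, add_comm c x]
      ring
    rw [sum_congr rfl fun x _ => h1 x, sum_comm]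
    refine sum_congr rfl fun b _ => ?_
    rw [sum_comm]
    refine sum_congr rfl fun c _ => ?_
    rw [mul_sum]
  have hval : ∀ b c : ZMod p, ∑ x : ZMod p, χ (x + b) * (starRingEnd ℂ) (χ (x + c)) =
      (if b = c then (D : ℂ) + 1 else 0) - 1 := by
    intro b c
    split_ifs with h
    · rw [h, (hD c).1]; ring
    · rw [Pool.Agent.N793.PG.corr χ hχ h]; ring
  have h5 : ∑ b ∈ A, ∑ c ∈ A, v b * (starRingEnd ℂ) (v c) *
        ((if b = c then (D : ℂ) + 1 else 0) - 1) =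
      (((D + 1) * (∑ b ∈ A, ‖v b‖ ^ 2) - ‖∑ b ∈ A, v b‖ ^ 2 : ℝ) : ℂ) := by
    have h6 : ∀ b ∈ A, ∑ c ∈ A, v b * (starRingEnd ℂ) (v c) *
          ((if b = c then (D : ℂ) + 1 else 0) - 1) =
        (D + 1) * (‖v b‖ : ℂ) ^ 2 - v b * ∑ c ∈ A, (starRingEnd ℂ) (v c) := by
      intro b hb
      rw [mul_sum]
      rw [show ((D : ℂ) + 1) * (‖v b‖ : ℂ) ^ 2 =
          ∑ c ∈ A, if b = c then ((D : ℂ) + 1) * (‖v b‖ : ℂ) ^ 2 else 0 by
        rw [sum_ite_eq A b, if_pos hb]]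
      rw [← sum_sub_distrib]
      refine sum_congr rfl fun c _ => ?_
      split_ifs with h
      · rw [← h, ← Complex.mul_conj']; ring
      · ring
    rw [sum_congr rfl h6, sum_sub_distrib, ← mul_sum, ← sum_mul]
    push_cast
    rw [← Complex.mul_conj' (∑ b ∈ A, v b), map_sum]
  rw [sum_congr rfl fun b _ => sum_congr rfl fun c _ => by rw [hval b c], h5] at hexp
  have hre : ∑ x : ZMod p, ‖∑ a ∈ A, v a * χ (a + x)‖ ^ 2 =
      (D + 1) * (∑ b ∈ A, ‖v b‖ ^ 2) - ‖∑ b ∈ A, v b‖ ^ 2 := by exact_mod_cast hexp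
  rw [hre]
  have h7 := (hD 0).2
  have h8 : 0 ≤ ∑ b ∈ A, ‖v b‖ ^ 2 := sum_nonneg fun b _ => sq_nonneg _
  nlinarith [sq_nonneg ‖∑ b ∈ A, v b‖]

/-- the second moment with weights at most `1`, in the form used below -/
theorem second_w (hχ : χ ≠ 1) (A B : Finset (ZMod p)) (hA : A.Nonempty) (hB : B.Nonempty)
    (v : ZMod p → ℂ) (hv : ∀ a, ‖v a‖ ≤ 1) :
    ∑ x ∈ B, ‖∑ a ∈ A, v a * χ (a + x)‖ ^ 2 ≤
      (p : ℝ) / (A.card * B.card) * (A.card : ℝ) ^ 2 * B.card := by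
  have hA0 : (0 : ℝ) < A.card := by exact_mod_cast hA.card_pos
  have hB0 : (0 : ℝ) < B.card := by exact_mod_cast hB.card_pos
  calc ∑ x ∈ B, ‖∑ a ∈ A, v a * χ (a + x)‖ ^ 2 ≤ ∑ x : ZMod p, ‖∑ a ∈ A, v a * χ (a + x)‖ ^ 2 :=
        sum_le_sum_of_subset_of_nonneg (subset_univ B) fun _ _ _ => sq_nonneg _
    _ ≤ p * ∑ a ∈ A, ‖v a‖ ^ 2 := second_c χ hχ A v
    _ ≤ p * A.card := by
        refine mul_le_mul_of_nonneg_left ?_ (Nat.cast_nonneg _)
        calc ∑ a ∈ A, ‖v a‖ ^ 2 ≤ ∑ a ∈ A, (1 : ℝ) := sum_le_sum fun a _ =>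
              pow_le_one₀ (norm_nonneg _) (hv a)
          _ = A.card := by simp
    _ = _ := by field_simp

theorem two_le_order (hχ : χ ≠ 1) : 2 ≤ orderOf χ := by
  have h1 : 0 < orderOf χ := orderOf_pos χ
  have h2 : orderOf χ ≠ 1 := fun h => hχ (orderOf_eq_one_iff.1 h)
  omega

theorem root_value (x : ZMod p) : χ x = 0 ∨ χ x ^ orderOf χ = 1 := by
  by_cases hx : IsUnit x
  · right
    have h1 : 0 < orderOf χ := orderOf_pos χ
    rw [← MulChar.pow_apply' χ h1.ne', pow_orderOf_eq_one, MulChar.one_apply hx]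
  · left
    exact MulChar.map_nonunit χ hx

theorem pow_ne {j : ℕ} (hj : j ∈ Ico 1 (orderOf χ)) : χ ^ j ≠ 1 := by
  rw [mem_Ico] at hj
  exact pow_ne_one_of_lt_orderOf (by omega) hj.2

/-- few zeros -/
theorem zeros (A B : Finset (ZMod p)) :
    ∑ x ∈ B, (zr (fun a b => χ (a + b)) A x : ℝ) ≤ B.card := by
  calc ∑ x ∈ B, (zr (fun a b => χ (a + b)) A x : ℝ) ≤ ∑ x ∈ B, (1 : ℝ) := by
        refine sum_le_sum fun x _ => ?_
        have : zr (fun a b => χ (a + b)) A x ≤ 1 := by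
          rw [zr, Set.ncard_le_one (Set.toFinite _)]
          rintro a ⟨_, ha⟩ b ⟨_, hb⟩
          have h0 : ∀ y : ZMod p, χ y = 0 → y = 0 := by
            intro y hy
            by_contra hne
            have := norm_unit χ hne
            rw [hy, norm_zero] at this
            exact zero_ne_one this
          have h1 := h0 _ ha
          have h2 := h0 _ hb
          exact add_right_cancel (h1.trans h2.symm)
        exact_mod_cast this
    _ = B.card := by simp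

/-- **Every prime.** -/
theorem classical_irr (hχ : χ ≠ 1) (A B : Finset (ZMod p)) (hA : A.Nonempty) (hB : B.Nonempty)
    (k : ℕ) (τ : ℝ) (hτ : 0 < τ) (hτ1 : τ ≤ 1) :
    (Set.ncard {b | b ∈ tup B k ∧ ¬ Reg (fun a b => χ (a + b)) A (orderOf χ) b τ} : ℝ) ≤
      5 * (orderOf χ : ℝ) ^ (2 * k) * ((p : ℝ) / (A.card * B.card)) / τ ^ 2 *
        (B.card : ℝ) ^ k := by
  have hp0 : (0 : ℝ) < p := by exact_mod_cast (Fact.out : p.Prime).pos
  have hA0 : (0 : ℝ) < A.card := by exact_mod_cast hA.card_pos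
  have hB0 : (0 : ℝ) < B.card := by exact_mod_cast hB.card_pos
  refine few_irregular' (fun a b => χ (a + b)) A B (two_le_order χ hχ)
    (fun a b => root_value χ (a + b)) hA hB _ (by positivity) ?_ ?_ k τ hτ hτ1
  · intro j hj v hv
    have h1 := second_w (χ ^ j) (pow_ne χ hj) A B hA hB v hv
    have h2 : j ≠ 0 := by have := (mem_Ico.1 hj).1; omega
    simp only [MulChar.pow_apply' χ h2] at h1
    exact h1
  · refine (zeros χ A B).trans ?_
    have h1 : (B.card : ℝ) ≤ p := by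
      have h2 := card_le_univ B
      rw [ZMod.card] at h2
      exact_mod_cast h2
    calc (B.card : ℝ) ≤ p := h1
      _ = _ := by field_simp

/-- correlations of different characters along almost all tuples, every prime -/
theorem classical_corr (A B : Finset (ZMod p)) (hA : A.Nonempty) (hB : B.Nonempty) (k : ℕ)
    (ψ : Fin k → MulChar (ZMod p) ℂ) (hψ : ∃ i, ψ i ≠ 1) :
    ∑ b ∈ tup B k, ‖∑ a ∈ A, ∏ i, ψ i (a + b i)‖ ^ 2 ≤
      (p : ℝ) / (A.card * B.card) * (A.card : ℝ) ^ 2 * (B.card : ℝ) ^ k := by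
  obtain ⟨i, hi⟩ := hψ
  exact SP.corr A B (fun i a b => ψ i (a + b)) (fun i a b => norm_le_one _ _) _ i
    (fun v hv => second_w (ψ i) hi A B hA hB v hv)

theorem classical_matrices (hχ : χ ≠ 1) (A B : Finset (ZMod p)) (l k : ℕ)
    (h : 40 * (orderOf χ : ℝ) ^ (2 * k) * p ≤ A.card * B.card)
    (hA : 2 * l * orderOf χ ^ k ≤ A.card) : AllMatrices χ A B l k := by
  intro σ hσ
  have hp0 : (0 : ℝ) < p := by exact_mod_cast (Fact.out : p.Prime).pos
  have hm := two_le_order χ hχ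
  have hm0 : (0 : ℝ) < orderOf χ := by exact_mod_cast (by omega : 0 < orderOf χ)
  have hpos : 0 < (A.card : ℝ) * B.card := (by positivity :
    0 < 40 * (orderOf χ : ℝ) ^ (2 * k) * p).trans_le h
  have hA1 : 0 < A.card := by
    rcases Nat.eq_zero_or_pos A.card with h0 | h0
    · rw [h0] at hpos; simp at hpos
    · exact h0
  have hB1 : 0 < B.card := by
    rcases Nat.eq_zero_or_pos B.card with h0 | h0
    · rw [h0] at hpos; simp at hpos
    · exact h0
  have hA0 : (0 : ℝ) < A.card := by exact_mod_cast hA1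
  have hB0 : (0 : ℝ) < B.card := by exact_mod_cast hB1
  have h1 := classical_irr χ hχ A B (card_pos.1 hA1) (card_pos.1 hB1) k (1 / 2) (by norm_num)
    (by norm_num)
  have h2 := few_repeated B (card_pos.1 hB1) k
  have hBk : (0 : ℝ) < (B.card : ℝ) ^ k := by positivity
  refine matrices (fun a b => χ (a + b)) A B (by omega) hA ?_ σ hσ
  have h3 : 5 * (orderOf χ : ℝ) ^ (2 * k) * ((p : ℝ) / (A.card * B.card)) / (1 / 2) ^ 2 ≤ 1 / 2 := by
    rw [div_le_iff₀ (by norm_num), mul_div_assoc', div_le_iff₀ hpos]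
    linarith
  have hcard : (A.card : ℝ) ≤ p := by
    have h2 := card_le_univ A
    rw [ZMod.card] at h2
    exact_mod_cast h2
  have h4 : 40 * (orderOf χ : ℝ) ^ (2 * k) ≤ B.card := by
    have : 40 * (orderOf χ : ℝ) ^ (2 * k) * p ≤ (B.card : ℝ) * p := by
      calc _ ≤ (A.card : ℝ) * B.card := h
        _ ≤ p * B.card := by gcongr
        _ = _ := by ring
    exact le_of_mul_le_mul_right this hp0
  have h5 : (k : ℝ) ^ 2 ≤ (orderOf χ : ℝ) ^ (2 * k) := by
    have h6 : k < 2 ^ k := Nat.lt_two_pow_self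
    have h7 : k ^ 2 ≤ orderOf χ ^ (2 * k) := by
      calc k ^ 2 ≤ (2 ^ k) ^ 2 := Nat.pow_le_pow_left h6.le 2
        _ = 2 ^ (2 * k) := by rw [← pow_mul, mul_comm]
        _ ≤ _ := Nat.pow_le_pow_left hm _
    exact_mod_cast h7
  have h6 : (Set.ncard {b : Fin k → ZMod p | b ∈ tup B k ∧ ¬ Function.Injective b} : ℝ) ≤
      1 / 40 * (B.card : ℝ) ^ k := by
    have h7 : (Set.ncard {b : Fin k → ZMod p | b ∈ tup B k ∧ ¬ Function.Injective b} : ℝ) * B.card ≤
        (1 / 40 * (B.card : ℝ) ^ k) * B.card := by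
      calc _ ≤ (k : ℝ) ^ 2 * (B.card : ℝ) ^ k := h2
        _ ≤ (1 / 40 * B.card) * (B.card : ℝ) ^ k := by
            refine mul_le_mul_of_nonneg_right ?_ hBk.le
            linarith
        _ = _ := by ring
    exact le_of_mul_le_mul_right h7 hB0
  have h7 := mul_le_mul_of_nonneg_right h3 hBk.le
  calc _ ≤ 1 / 2 * (B.card : ℝ) ^ k + 1 / 40 * (B.card : ℝ) ^ k := add_le_add (h1.trans h7) h6
    _ < _ := by linarith

theorem equi_of (hχ : χ ≠ 1) (A B : Finset (ZMod p)) (hA : A.Nonempty) (hB : B.Nonempty)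
    (κ δ : ℝ) (hκ : 0 ≤ κ) (hδ : 0 ≤ δ) (hκδ : 5 * κ ≤ (p : ℝ) ^ (-(5 * δ)))
    (hz : 1 ≤ κ * A.card)
    (H : ∀ j ∈ Ico 1 (orderOf χ), ∀ v : ZMod p → ℂ, (∀ a, ‖v a‖ ≤ 1) →
      ∑ x ∈ B, ‖∑ a ∈ A, v a * χ (a + x) ^ j‖ ^ 2 ≤ κ * (A.card : ℝ) ^ 2 * B.card) :
    Equi χ A B δ := by
  intro k hk
  have hp0 : (0 : ℝ) < p := by exact_mod_cast (Fact.out : p.Prime).pos
  have hp1 : (1 : ℝ) ≤ p := by exact_mod_cast (Fact.out : p.Prime).one_le
  have hB0 : (0 : ℝ) < B.card := by exact_mod_cast hB.card_pos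
  refine (few_irregular' (fun a b => χ (a + b)) A B (two_le_order χ hχ)
    (fun a b => root_value χ (a + b)) hA hB κ hκ H ?_ k ((p : ℝ) ^ (-δ)) (by positivity)
    (Real.rpow_le_one_of_one_le_of_nonpos hp1 (by linarith))).trans ?_
  · refine (zeros χ A B).trans ?_
    calc (B.card : ℝ) = 1 * B.card := (one_mul _).symm
      _ ≤ κ * A.card * B.card := by gcongr
  · refine mul_le_mul_of_nonneg_right ?_ (by positivity)
    rw [div_le_iff₀ (by positivity)]
    calc 5 * (orderOf χ : ℝ) ^ (2 * k) * κ = ((orderOf χ : ℝ) ^ k) ^ 2 * (5 * κ) := by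
          rw [← pow_mul, mul_comm k 2]; ring
      _ ≤ ((p : ℝ) ^ δ) ^ 2 * (p : ℝ) ^ (-(5 * δ)) := by gcongr
      _ = (p : ℝ) ^ (-δ) * ((p : ℝ) ^ (-δ)) ^ 2 := by
          rw [← Real.rpow_natCast, ← Real.rpow_natCast, ← Real.rpow_mul hp0.le,
            ← Real.rpow_mul hp0.le, ← Real.rpow_add hp0, ← Real.rpow_add hp0]
          congr 1
          push_cast
          ring

/-- equidistribution for `k = 1` gives back the second set of sums -/
theorem Equi.saves {χ : MulChar (ZMod p) ℂ} (hχ : χ ≠ 1) {A B : Finset (ZMod p)} {δ : ℝ}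
    (h : Equi χ A B δ) (hm : (orderOf χ : ℝ) ≤ (p : ℝ) ^ δ) :
    ‖∑ a ∈ A, ∑ b ∈ B, χ (a + b)‖ ≤ 2 * (p : ℝ) ^ (-δ) * A.card * B.card := by
  classical
  have hp0 : (0 : ℝ) < p := by exact_mod_cast (Fact.out : p.Prime).pos
  have hm2 := two_le_order χ hχ
  have hm0 : (0 : ℝ) < orderOf χ := by exact_mod_cast (by omega : 0 < orderOf χ)
  have h1 := h 1 (by rw [pow_one]; exact hm)
  rw [pow_one] at h1
  set X : Finset (ZMod p) := B.filter fun x =>
    ¬ Reg (fun a b => χ (a + b)) A (orderOf χ) (fun _ : Fin 1 => x) ((p : ℝ) ^ (-δ)) with hX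
  have hXc : (X.card : ℝ) ≤ (p : ℝ) ^ (-δ) * B.card := by
    refine le_trans ?_ h1
    rw [← Set.ncard_coe_finset]
    have hinj : Function.Injective fun x : ZMod p => (fun _ : Fin 1 => x) := fun x y hxy =>
      congrFun hxy 0
    rw [← Set.ncard_image_of_injective _ hinj]
    refine Nat.cast_le.2 (Set.ncard_le_ncard ?_ (Set.toFinite _))
    rintro _ ⟨x, hx, rfl⟩
    rw [mem_coe, hX, mem_filter] at hx
    exact ⟨Fintype.mem_piFinset.2 fun _ => hx.1, hx.2⟩
  have hbd : ∀ x, ‖∑ a ∈ A, χ (a + x)‖ ≤ A.card := fun x => by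
    refine (norm_sum_le _ _).trans ?_
    calc ∑ a ∈ A, ‖χ (a + x)‖ ≤ ∑ a ∈ A, (1 : ℝ) := sum_le_sum fun a _ => norm_le_one _ _
      _ = A.card := by simp
  have hgood : ∀ x ∈ B \ X, ‖∑ a ∈ A, χ (a + x)‖ ≤ (p : ℝ) ^ (-δ) * A.card := by
    intro x hx
    rw [mem_sdiff, hX, mem_filter] at hx
    have hreg : Reg (fun a b => χ (a + b)) A (orderOf χ) (fun _ : Fin 1 => x) ((p : ℝ) ^ (-δ)) := by
      by_contra hcon
      exact hx.2 ⟨hx.1, hcon⟩
    set U := Polynomial.nthRootsFinset (orderOf χ) (1 : ℂ) with hU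
    have hcard : (U.card : ℝ) = orderOf χ := by
      rw [hU, (Complex.isPrimitiveRoot_exp _ (by omega : orderOf χ ≠ 0)).card_nthRootsFinset]
    have hsumU : ∑ ζ ∈ U, ζ = 0 := by
      have h2 := (Complex.isPrimitiveRoot_exp _ (by omega : orderOf χ ≠ 0))
      set ζ₀ := Complex.exp (2 * Real.pi * Complex.I / (orderOf χ : ℕ)) with hζ₀
      have h3 : ζ₀ ^ orderOf χ = 1 := h2.pow_eq_one
      have h4 : ζ₀ ≠ 1 := h2.ne_one (by omega)
      have h5 : ζ₀ ≠ 0 := h2.ne_zero (by omega)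
      have hmem : ∀ z : ℂ, z ∈ U ↔ z ^ orderOf χ = 1 := fun z =>
        Polynomial.mem_nthRootsFinset (by omega) _
      have h6 : ∑ ζ ∈ U, ζ = ∑ ζ ∈ U, ζ₀ * ζ := by
        refine sum_nbij' (fun ζ => ζ₀⁻¹ * ζ) (fun ζ => ζ₀ * ζ) ?_ ?_ ?_ ?_ ?_
        · intro z hz
          rw [hmem] at hz ⊢
          rw [mul_pow, hz, inv_pow, h3]; simp
        · intro z hz
          rw [hmem] at hz ⊢
          rw [mul_pow, hz, h3]; simp
        · intro z _
          rw [mul_inv_cancel_left₀ h5]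
        · intro z _
          rw [inv_mul_cancel_left₀ h5]
        · intro z _
          rw [mul_inv_cancel_left₀ h5]
      rw [← mul_sum] at h6
      have h7 : (1 - ζ₀) * ∑ ζ ∈ U, ζ = 0 := by
        rw [sub_mul, one_mul, ← h6, sub_self]
      exact (mul_eq_zero.1 h7).resolve_left (sub_ne_zero.2 (Ne.symm h4))
    have e : ∑ a ∈ A, χ (a + x) = ∑ ζ ∈ U, ζ *
        ((cnt (fun a b => χ (a + b)) A (fun _ : Fin 1 => x) (fun _ => ζ) : ℂ) -
          A.card / (orderOf χ : ℂ)) := by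
      have e1 : ∑ ζ ∈ U, ζ * ((cnt (fun a b => χ (a + b)) A (fun _ : Fin 1 => x) (fun _ => ζ) : ℂ) -
          A.card / (orderOf χ : ℂ)) = ∑ ζ ∈ U, ζ *
            (cnt (fun a b => χ (a + b)) A (fun _ : Fin 1 => x) (fun _ => ζ) : ℂ) := by
        simp only [mul_sub]
        rw [sum_sub_distrib, ← sum_mul, hsumU]
        simp
      rw [e1]
      simp only [cnt_eq, mul_sum]
      rw [sum_comm]
      refine sum_congr rfl fun a _ => ?_
      simp only [univ_unique, prod_singleton, mul_ite, mul_one, mul_zero]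
      rw [sum_ite_eq]
      rcases root_value χ (a + x) with h2 | h2
      · rw [h2]; simp
      · rw [if_pos ((Polynomial.mem_nthRootsFinset (by omega) _).2 h2)]
    rw [e]
    refine (norm_sum_le _ _).trans ?_
    calc ∑ ζ ∈ U, ‖ζ * ((cnt (fun a b => χ (a + b)) A (fun _ : Fin 1 => x) (fun _ => ζ) : ℂ) -
          A.card / (orderOf χ : ℂ))‖ ≤
        ∑ ζ ∈ U, (p : ℝ) ^ (-δ) * (A.card / (orderOf χ : ℝ)) := by
          refine sum_le_sum fun ζ hζ => ?_
          have hζ1 : ζ ^ orderOf χ = 1 := (Polynomial.mem_nthRootsFinset (by omega) _).1 hζ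
          have h2 := hreg (fun _ => ζ) (fun _ => hζ1)
          rw [norm_mul, Complex.norm_eq_one_of_pow_eq_one hζ1 (by omega), one_mul]
          rw [pow_one] at h2
          have e2 : ((cnt (fun a b => χ (a + b)) A (fun _ : Fin 1 => x) (fun _ => ζ) : ℂ) -
              A.card / (orderOf χ : ℂ)) = (((cnt (fun a b => χ (a + b)) A (fun _ : Fin 1 => x)
                (fun _ => ζ) : ℝ) - A.card / (orderOf χ : ℝ) : ℝ) : ℂ) := by push_cast; rfl
          rw [e2, Complex.norm_real, Real.norm_eq_abs]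
          exact h2
      _ = _ := by
          rw [sum_const, nsmul_eq_mul, hcard]
          field_simp
  rw [sum_comm]
  refine (norm_sum_le _ _).trans ?_
  have hXB : X ⊆ B := filter_subset _ _
  rw [← sum_sdiff hXB]
  calc _ ≤ ∑ x ∈ B \ X, (p : ℝ) ^ (-δ) * A.card + ∑ x ∈ X, (A.card : ℝ) :=
        add_le_add (sum_le_sum hgood) (sum_le_sum fun x _ => hbd x)
    _ ≤ B.card * ((p : ℝ) ^ (-δ) * A.card) + (p : ℝ) ^ (-δ) * B.card * A.card := by
        rw [sum_const, sum_const, nsmul_eq_mul, nsmul_eq_mul]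
        have h2 : ((B \ X).card : ℝ) ≤ B.card := by exact_mod_cast card_le_card sdiff_subset
        gcongr
    _ = _ := by ring

end onePrime

end Pool.Agent.V7H48.SP
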